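import Pool.Agent.Rev.Defs

set_option autoImplicit false
open scoped ContDiff
open Real Set

namespace Pool.Agent.Rev

/-- A continuous function on `[0,1)` with values in `2π ℚ` on `(0,1)` is constant. -/
theorem rational_const {D : ℝ → ℝ} (hc : ContinuousOn D (Ico 0 1))
    (h : ∀ a ∈ Ioo (0 : ℝ) 1, ∃ k m : ℤ, 0 < k ∧ k * D a = 2 * π * m) :
    ∀ a ∈ Ico (0 : ℝ) 1, D a = D 0 := by
  intro a ha
  by_contra hne
  have ha0 : 0 ≤ a := ha.1
  -- a value strictly between with irrational quotient by 2π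
  have hpi : (0 : ℝ) < 2 * π := by positivity
  have hmin : min (D 0) (D a) / (2 * π) < max (D 0) (D a) / (2 * π) := by
    apply div_lt_div_of_pos_right _ hpi
    exact min_lt_max.mpr (fun h => hne h.symm)
  obtain ⟨v, hv, hv1, hv2⟩ := exists_irrational_btwn hmin
  have hv1' : min (D 0) (D a) < 2 * π * v := by
    rw [div_lt_iff₀ hpi] at hv1; linarith
  have hv2' : 2 * π * v < max (D 0) (D a) := by
    rw [lt_div_iff₀ hpi] at hv2; linarith
  have hsub : Icc 0 a ⊆ Ico (0 : ℝ) 1 := fun x hx => ⟨hx.1, hx.2.trans_lt ha.2⟩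
  have hivt := intermediate_value_uIcc (a := 0) (b := a) (f := D) (by
    rw [uIcc_of_le ha0]; exact hc.mono hsub)
  have hmem : 2 * π * v ∈ uIcc (D 0) (D a) := ⟨hv1'.le, hv2'.le⟩
  obtain ⟨x, hx, hxv⟩ := hivt hmem
  rw [uIcc_of_le ha0] at hx
  have hx0 : x ≠ 0 := by
    intro h0
    rw [h0] at hxv
    rcases le_total (D 0) (D a) with hl | hl
    · rw [min_eq_left hl] at hv1'; linarith
    · rw [max_eq_left hl] at hv2'; linarith
  have hxI : x ∈ Ioo (0 : ℝ) 1 := ⟨lt_of_le_of_ne hx.1 (Ne.symm hx0), (hsub hx).2⟩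
  obtain ⟨k, m, hk, hkm⟩ := h x hxI
  rw [hxv] at hkm
  have hk' : (0 : ℝ) < k := by exact_mod_cast hk
  have : v = ((m / k : ℚ) : ℝ) := by
    push_cast
    field_simp
    have h2 : 2 * π * (k * v - m) = 0 := by linarith
    rcases mul_eq_zero.mp h2 with h3 | h3
    · exact absurd h3 hpi.ne'
    · linarith
  exact hv ⟨_, this.symm⟩

/-- The rotation integral of the round sphere. -/
theorem integral_sphere {a : ℝ} (ha : 0 ≤ a) (ha1 : a < 1) :
    ∫ χ in (0 : ℝ)..(π / 2), 1 / (1 - (a * sin χ) ^ 2) = π / (2 * sqrt (1 - a ^ 2)) := by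
  have hpos : 0 < 1 - a ^ 2 := by nlinarith
  set c := sqrt (1 - a ^ 2) with hc
  have hc0 : 0 < c := sqrt_pos.mpr hpos
  have hc2 : c ^ 2 = 1 - a ^ 2 := sq_sqrt hpos.le
  have hden : ∀ χ : ℝ, 0 < 1 - (a * sin χ) ^ 2 := by
    intro χ
    have : sin χ ^ 2 ≤ 1 := sin_sq_le_one χ
    have h2 : (a * sin χ) ^ 2 ≤ a ^ 2 := by
      rw [mul_pow]; exact mul_le_of_le_one_right (sq_nonneg a) this
    linarith
  let z : ℝ → ℂ := fun χ => ((cos χ : ℝ) : ℂ) + ((c * sin χ : ℝ) : ℂ) * Complex.I
  have hz : ∀ χ, HasDerivAt z (((-sin χ : ℝ) : ℂ) + ((c * cos χ : ℝ) : ℂ) * Complex.I) χ := by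
    intro χ
    have h1 : HasDerivAt (fun χ : ℝ => ((cos χ : ℝ) : ℂ)) ((-sin χ : ℝ) : ℂ) χ :=
      (hasDerivAt_cos χ).ofReal_comp
    have h2 : HasDerivAt (fun χ : ℝ => ((c * sin χ : ℝ) : ℂ)) ((c * cos χ : ℝ) : ℂ) χ :=
      ((hasDerivAt_sin χ).const_mul c).ofReal_comp
    exact h1.add (h2.mul_const _)
  have hgre : ∀ x y : ℝ, ((x : ℂ) + (y : ℂ) * Complex.I).re = x := by intro x y; simp
  have hgim : ∀ x y : ℝ, ((x : ℂ) + (y : ℂ) * Complex.I).im = y := by intro x y; simp
  have hre : ∀ χ, (z χ).re = cos χ := fun χ => hgre _ _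
  have him : ∀ χ, (z χ).im = c * sin χ := fun χ => hgim _ _
  have hslit : ∀ χ ∈ uIcc (0 : ℝ) (π / 2), z χ ∈ Complex.slitPlane := by
    intro χ hχ
    rw [uIcc_of_le (by positivity)] at hχ
    rw [Complex.mem_slitPlane_iff, hre, him]
    rcases hχ.2.eq_or_lt with h | h
    · right
      rw [h, sin_pi_div_two]; simpa using hc0.ne'
    · left
      exact cos_pos_of_mem_Ioo ⟨by linarith [hχ.1, pi_pos], h⟩
  have hder : ∀ χ ∈ uIcc (0 : ℝ) (π / 2),
      HasDerivAt (fun χ => (Complex.log (z χ)).im / c) (1 / (1 - (a * sin χ) ^ 2)) χ := by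
    intro χ hχ
    have h1 := (hz χ).clog_real (hslit χ hχ)
    have h2 := (Complex.imCLM.hasFDerivAt.comp_hasDerivAt χ h1)
    have h3 := h2.div_const c
    refine HasDerivAt.congr_deriv h3 ?_
    simp only [Complex.imCLM_apply]
    rw [Complex.div_im]
    simp only [Complex.normSq_apply, hre, him, hgre, hgim]
    have hn : cos χ * cos χ + c * sin χ * (c * sin χ) = 1 - (a * sin χ) ^ 2 := by
      have := sin_sq_add_cos_sq χ
      have h4 : c * sin χ * (c * sin χ) = c ^ 2 * sin χ ^ 2 := by ring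
      rw [h4, hc2]; nlinarith
    rw [hn]
    have h5 : (1 - (a * sin χ) ^ 2) ≠ 0 := (hden χ).ne'
    have h6 := sin_sq_add_cos_sq χ
    have h7 : c * cos χ * cos χ / (1 - (a * sin χ) ^ 2) -
        -sin χ * (c * sin χ) / (1 - (a * sin χ) ^ 2) = c / (1 - (a * sin χ) ^ 2) := by
      rw [← sub_div]
      congr 1
      have : c * cos χ * cos χ - -sin χ * (c * sin χ) = c * (sin χ ^ 2 + cos χ ^ 2) := by ring
      rw [this, h6, mul_one]
    rw [h7]
    field_simp
  have hint : IntervalIntegrable (fun χ : ℝ => 1 / (1 - (a * sin χ) ^ 2)) MeasureTheory.volume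
      0 (π / 2) := by
    apply Continuous.intervalIntegrable
    exact continuous_const.div (by fun_prop) (fun χ => (hden χ).ne')
  rw [intervalIntegral.integral_eq_sub_of_hasDerivAt hder hint]
  have hz0 : z 0 = 1 := by simp [z]
  have hz1 : z (π / 2) = (c : ℂ) * Complex.I := by simp [z]
  rw [hz0, hz1]
  simp only [Complex.log_one, Complex.zero_im, zero_div, sub_zero]
  have : (Complex.log ((c : ℂ) * Complex.I)).im = π / 2 := by
    rw [Complex.log_im, Complex.arg_real_mul _ hc0, Complex.arg_I]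
  rw [this]
  field_simp

/-- Wallis integrals on `[0, π/2]`. -/
theorem wallis (n : ℕ) : (∫ x in (0 : ℝ)..(π / 2), sin x ^ n) =
    (∫ x in (0 : ℝ)..π, sin x ^ n) / 2 := by
  have hi : ∀ a b : ℝ, IntervalIntegrable (fun x : ℝ => sin x ^ n) MeasureTheory.volume a b :=
    fun a b => Continuous.intervalIntegrable (by fun_prop) a b
  have h1 := intervalIntegral.integral_add_adjacent_intervals (hi 0 (π / 2)) (hi (π / 2) π)
  have h2 : ∫ x in (π / 2)..π, sin x ^ n = ∫ x in (0 : ℝ)..(π / 2), sin x ^ n := by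
    have := intervalIntegral.integral_comp_sub_left (a := (0 : ℝ)) (b := π / 2)
      (fun x => sin x ^ n) π
    simp only [sin_pi_sub] at this
    rw [this]
    congr 1 <;> ring
  rw [← h1, h2]; ring

theorem wallis_mul (n : ℕ) : (∫ x in (0 : ℝ)..(π / 2), sin x ^ n) *
    (∫ x in (0 : ℝ)..(π / 2), sin x ^ (n + 1)) = π / 2 / (n + 1) := by
  have key : ∀ n : ℕ, (∫ x in (0 : ℝ)..π, sin x ^ n) * (∫ x in (0 : ℝ)..π, sin x ^ (n + 1)) =
      2 * π / (n + 1) := by
    intro n
    induction n with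
    | zero => simp; ring
    | succ n ih =>
      have h := integral_sin_pow (a := 0) (b := π) n
      simp only [sin_zero, sin_pi, ne_eq, Nat.succ_ne_zero, not_false_eq_true, zero_pow,
        zero_mul, sub_zero, zero_div, zero_add] at h
      rw [show n + 1 + 1 = n + 2 from rfl, h]
      have e : (∫ x in (0 : ℝ)..π, sin x ^ (n + 1)) * ((n + 1) / (n + 2) *
          ∫ x in (0 : ℝ)..π, sin x ^ n) = (n + 1) / (n + 2) *
          ((∫ x in (0 : ℝ)..π, sin x ^ n) * (∫ x in (0 : ℝ)..π, sin x ^ (n + 1))) := by ring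
      rw [e, ih]
      push_cast
      field_simp
      ring
  rw [wallis, wallis]
  have := key n
  have e : (∫ x in (0 : ℝ)..π, sin x ^ n) / 2 * ((∫ x in (0 : ℝ)..π, sin x ^ (n + 1)) / 2) =
      ((∫ x in (0 : ℝ)..π, sin x ^ n) * (∫ x in (0 : ℝ)..π, sin x ^ (n + 1))) / 4 := by ring
  rw [e, this]
  field_simp
  ring

/-- The double transform is the integral, on polynomials. -/
theorem double_poly (p : Polynomial ℝ) (a : ℝ) :
    a * ∫ v in (0 : ℝ)..(π / 2), (∫ u in (0 : ℝ)..(π / 2), p.eval (a * sin v * sin u)) * sin v =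
      π / 2 * ∫ x in (0 : ℝ)..a, p.eval x := by
  induction p using Polynomial.induction_on' with
  | add p q hp hq =>
    simp only [Polynomial.eval_add]
    have h1 : ∀ v : ℝ, (∫ u in (0 : ℝ)..(π / 2), (p.eval (a * sin v * sin u) +
        q.eval (a * sin v * sin u))) = (∫ u in (0 : ℝ)..(π / 2), p.eval (a * sin v * sin u)) +
        ∫ u in (0 : ℝ)..(π / 2), q.eval (a * sin v * sin u) := by
      intro v
      apply intervalIntegral.integral_add <;>
        exact Continuous.intervalIntegrable (by fun_prop) _ _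
    have hc : ∀ r : Polynomial ℝ,
        Continuous fun v : ℝ => ∫ u in (0 : ℝ)..(π / 2), r.eval (a * sin v * sin u) := by
      intro r
      apply intervalIntegral.continuous_parametric_intervalIntegral_of_continuous'
      fun_prop
    simp only [h1, add_mul]
    rw [intervalIntegral.integral_add, intervalIntegral.integral_add, mul_add, hp, hq, mul_add]
    · exact Continuous.intervalIntegrable (by fun_prop) _ _
    · exact Continuous.intervalIntegrable (by fun_prop) _ _
    · exact Continuous.intervalIntegrable ((hc p).mul continuous_sin) _ _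
    · exact Continuous.intervalIntegrable ((hc q).mul continuous_sin) _ _
  | monomial n c =>
    simp only [Polynomial.eval_monomial]
    have h1 : ∀ v : ℝ, (∫ u in (0 : ℝ)..(π / 2), c * (a * sin v * sin u) ^ n) =
        c * a ^ n * sin v ^ n * ∫ u in (0 : ℝ)..(π / 2), sin u ^ n := by
      intro v
      rw [← intervalIntegral.integral_const_mul]
      congr 1
      ext u; ring
    simp only [h1]
    have h2 : (∫ v in (0 : ℝ)..(π / 2), c * a ^ n * sin v ^ n *
        (∫ u in (0 : ℝ)..(π / 2), sin u ^ n) * sin v) = c * a ^ n *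
        ((∫ u in (0 : ℝ)..(π / 2), sin u ^ n) * ∫ v in (0 : ℝ)..(π / 2), sin v ^ (n + 1)) := by
      rw [← intervalIntegral.integral_const_mul, ← intervalIntegral.integral_const_mul]
      congr 1
      ext v; ring
    rw [h2, wallis_mul, intervalIntegral.integral_const_mul, integral_pow]
    field_simp
    ring

/-- Injectivity of the Abel type transform `F ↦ (a ↦ ∫₀^{π/2} F (a sin χ) dχ)`. -/
theorem abel_zero {F : ℝ → ℝ} (hF : ContinuousOn F (Ico 0 1))
    (h : ∀ a ∈ Ico (0 : ℝ) 1, ∫ χ in (0 : ℝ)..(π / 2), F (a * sin χ) = 0) :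
    ∀ x ∈ Ico (0 : ℝ) 1, F x = 0 := by
  have hsin : ∀ u ∈ Icc (0 : ℝ) (π / 2), 0 ≤ sin u ∧ sin u ≤ 1 := by
    intro u hu
    exact ⟨sin_nonneg_of_nonneg_of_le_pi hu.1 (by linarith [hu.2, pi_pos]), sin_le_one u⟩
  -- the integral vanishes
  have hint : ∀ a ∈ Ico (0 : ℝ) 1, ∫ x in (0 : ℝ)..a, F x = 0 := by
    intro a ha
    have hFa : ContinuousOn F (Icc 0 a) := hF.mono fun x hx => ⟨hx.1, hx.2.trans_lt ha.2⟩
    have hb : ∀ ε : ℝ, 0 < ε → |∫ x in (0 : ℝ)..a, F x| ≤ ε * (1 + π / 2) := by
      intro ε hε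
      obtain ⟨p, hp⟩ := exists_polynomial_near_of_continuousOn 0 a F hFa ε hε
      -- inner transform is small
      have h1 : ∀ v ∈ Icc (0 : ℝ) (π / 2),
          |∫ u in (0 : ℝ)..(π / 2), p.eval (a * sin v * sin u)| ≤ ε * (π / 2) := by
        intro v hv
        have hv' := hsin v hv
        have hav : a * sin v ∈ Ico (0 : ℝ) 1 :=
          ⟨mul_nonneg ha.1 hv'.1, (mul_le_of_le_one_right ha.1 hv'.2).trans_lt ha.2⟩
        have hz := h _ hav
        have hFc : ContinuousOn (fun u => F (a * sin v * sin u)) (uIcc 0 (π / 2)) := by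
          rw [uIcc_of_le (by positivity)]
          apply ContinuousOn.comp hF (by fun_prop)
          intro u hu
          have hu' := hsin u hu
          exact ⟨mul_nonneg hav.1 hu'.1, (mul_le_of_le_one_right hav.1 hu'.2).trans_lt hav.2⟩
        have e : (∫ u in (0 : ℝ)..(π / 2), p.eval (a * sin v * sin u)) =
            ∫ u in (0 : ℝ)..(π / 2), (p.eval (a * sin v * sin u) - F (a * sin v * sin u)) := by
          rw [intervalIntegral.integral_sub, hz, sub_zero]
          · exact Continuous.intervalIntegrable (by fun_prop) _ _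
          · exact hFc.intervalIntegrable
        rw [e]
        have := intervalIntegral.norm_integral_le_of_norm_le_const (a := 0) (b := π / 2)
          (C := ε) (f := fun u => p.eval (a * sin v * sin u) - F (a * sin v * sin u)) (by
            intro u hu
            rw [uIoc_of_le (by positivity)] at hu
            have hu' := hsin u ⟨hu.1.le, hu.2⟩
            rw [norm_eq_abs]
            apply (hp _ _).le
            exact ⟨mul_nonneg hav.1 hu'.1,
              (mul_le_of_le_one_right hav.1 hu'.2).trans (mul_le_of_le_one_right ha.1 hv'.2)⟩)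
        rw [norm_eq_abs, sub_zero, abs_of_nonneg (by positivity : 0 ≤ π / 2)] at this
        exact this
      have h2 : |∫ v in (0 : ℝ)..(π / 2),
          (∫ u in (0 : ℝ)..(π / 2), p.eval (a * sin v * sin u)) * sin v| ≤
          ε * (π / 2) * (π / 2) := by
        have := intervalIntegral.norm_integral_le_of_norm_le_const (a := 0) (b := π / 2)
          (C := ε * (π / 2)) (f := fun v => (∫ u in (0 : ℝ)..(π / 2),
            p.eval (a * sin v * sin u)) * sin v) (by
            intro v hv
            rw [uIoc_of_le (by positivity)] at hv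
            have hv' := hsin v ⟨hv.1.le, hv.2⟩
            rw [norm_eq_abs, abs_mul, abs_of_nonneg hv'.1]
            have := h1 v ⟨hv.1.le, hv.2⟩
            calc _ ≤ ε * (π / 2) * 1 := mul_le_mul this hv'.2 hv'.1 (by positivity)
              _ = _ := mul_one _)
        rw [norm_eq_abs, sub_zero, abs_of_nonneg (by positivity : 0 ≤ π / 2)] at this
        exact this
      have h3 := double_poly p a
      have h4 : |∫ x in (0 : ℝ)..a, p.eval x| ≤ ε * (π / 2) := by
        have h5 : (∫ x in (0 : ℝ)..a, p.eval x) = 2 / π * (a * ∫ v in (0 : ℝ)..(π / 2),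
          (∫ u in (0 : ℝ)..(π / 2), p.eval (a * sin v * sin u)) * sin v) := by
          rw [h3]; field_simp
        rw [h5, abs_mul, abs_mul, abs_of_nonneg ha.1, abs_of_nonneg (by positivity : 0 ≤ 2 / π)]
        calc 2 / π * (a * |_|) ≤ 2 / π * (1 * (ε * (π / 2) * (π / 2))) := by
              apply mul_le_mul_of_nonneg_left _ (by positivity)
              exact mul_le_mul ha.2.le h2 (abs_nonneg _) (by norm_num)
          _ = _ := by field_simp
      have h6 : |(∫ x in (0 : ℝ)..a, F x) - ∫ x in (0 : ℝ)..a, p.eval x| ≤ ε := by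
        rw [← intervalIntegral.integral_sub]
        · have := intervalIntegral.norm_integral_le_of_norm_le_const (a := 0) (b := a)
            (C := ε) (f := fun x => F x - p.eval x) (by
              intro x hx
              rw [uIoc_of_le ha.1] at hx
              rw [norm_eq_abs, abs_sub_comm]
              exact (hp x ⟨hx.1.le, hx.2⟩).le)
          rw [norm_eq_abs, sub_zero, abs_of_nonneg ha.1] at this
          calc _ ≤ ε * a := this
            _ ≤ ε * 1 := mul_le_mul_of_nonneg_left ha.2.le hε.le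
            _ = ε := mul_one _
        · apply ContinuousOn.intervalIntegrable
          rwa [uIcc_of_le ha.1]
        · exact Continuous.intervalIntegrable (by fun_prop) _ _
      have h7 := abs_sub_abs_le_abs_sub (∫ x in (0 : ℝ)..a, F x) (∫ x in (0 : ℝ)..a, p.eval x)
      nlinarith
    by_contra hne
    have hpos : 0 < |∫ x in (0 : ℝ)..a, F x| := abs_pos.mpr hne
    have hK : 0 < 1 + π / 2 := by positivity
    have := hb (|∫ x in (0 : ℝ)..a, F x| / (2 * (1 + π / 2))) (by positivity)
    have e : |∫ x in (0 : ℝ)..a, F x| / (2 * (1 + π / 2)) * (1 + π / 2) =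
        |∫ x in (0 : ℝ)..a, F x| / 2 := by field_simp
    rw [e] at this
    linarith
  -- differentiate
  have hIoo : ∀ x ∈ Ioo (0 : ℝ) 1, F x = 0 := by
    intro x hx
    have hcx : ContinuousAt F x :=
      (hF x ⟨hx.1.le, hx.2⟩).continuousAt (Ico_mem_nhds hx.1 hx.2)
    have hFx : ContinuousOn F (uIcc 0 x) := by
      rw [uIcc_of_le hx.1.le]
      exact hF.mono fun y hy => ⟨hy.1, hy.2.trans_lt hx.2⟩
    have hmeas : StronglyMeasurableAtFilter F (nhds x) MeasureTheory.volume := by
      apply ContinuousOn.stronglyMeasurableAtFilter isOpen_Ioo (s := Ioo (0 : ℝ) 1) _ x hx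
      exact hF.mono Ioo_subset_Ico_self
    have hd := intervalIntegral.integral_hasDerivAt_right hFx.intervalIntegrable hmeas hcx
    have hz : HasDerivAt (fun u => ∫ y in (0 : ℝ)..u, F y) 0 x := by
      apply (hasDerivAt_const x (0 : ℝ)).congr_of_eventuallyEq
      filter_upwards [Ioo_mem_nhds hx.1 hx.2] with u hu
      exact hint u ⟨hu.1.le, hu.2⟩
    exact hd.unique hz
  intro x hx
  rcases hx.1.eq_or_lt with h0 | h0
  · -- x = 0: continuity
    have hz := h 0 ⟨le_refl 0, by norm_num⟩
    simp only [zero_mul, intervalIntegral.integral_const, sub_zero, smul_eq_mul] at hz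
    rw [← h0]
    rcases mul_eq_zero.mp hz with h1 | h1
    · exact absurd h1 (by positivity)
    · exact h1
  · exact hIoo x ⟨h0, hx.2⟩

theorem sin_mem_of_lt {a b : ℝ} (ha : |a| < b) (χ : ℝ) : a * sin χ ∈ Ioo (-b) b := by
  have h1 : |a * sin χ| ≤ |a| := by
    rw [abs_mul]; exact mul_le_of_le_one_right (abs_nonneg a) (abs_sin_le_one χ)
  exact abs_lt.mp (h1.trans_lt ha)

theorem Rot_cont {H : ℝ → ℝ} (hH : ContinuousOn H (Ioo (-1) 1)) :
    ContinuousOn (Rot H) (Ico 0 1) := by
  have hM : ContinuousOn (fun x => H x / (1 - x ^ 2)) (Ioo (-1) 1) := by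
    apply hH.div (by fun_prop)
    intro x hx
    have : x ^ 2 < 1 := by nlinarith [hx.1, hx.2]
    linarith
  unfold Rot
  apply ContinuousOn.mul (by fun_prop)
  intro a0 ha0
  obtain ⟨b, hb0, hb1⟩ := exists_between ha0.2
  have hbpos : 0 < b := ha0.1.trans_lt hb0
  set M : ℝ → ℝ := fun x => H x / (1 - x ^ 2) with hMdef
  set N : ℝ → ℝ := fun x => M (max (-b) (min b x)) with hN
  have hclamp : ∀ x : ℝ, max (-b) (min b x) ∈ Ioo (-1 : ℝ) 1 := by
    intro x
    constructor
    · exact lt_of_lt_of_le (by linarith) (le_max_left _ _)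
    · exact max_lt (by linarith) ((min_le_left _ _).trans_lt hb1)
  have hNc : Continuous N := by
    rw [← continuousOn_univ]
    exact hM.comp (by fun_prop) (fun x _ => hclamp x)
  have hpar : Continuous fun a : ℝ => ∫ χ in (0 : ℝ)..(2 * π), N (a * sin χ) := by
    apply intervalIntegral.continuous_parametric_intervalIntegral_of_continuous'
    fun_prop
  have heq : ∀ᶠ a in nhds a0, (∫ χ in (0 : ℝ)..(2 * π), H (a * sin χ) / (1 - (a * sin χ) ^ 2)) =
      ∫ χ in (0 : ℝ)..(2 * π), N (a * sin χ) := by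
    have : Ioo (-b) b ∈ nhds a0 := Ioo_mem_nhds (by linarith [ha0.1]) hb0
    filter_upwards [this] with a ha
    congr 1
    ext χ
    have h1 := sin_mem_of_lt (abs_lt.mpr ⟨ha.1, ha.2⟩) χ
    simp only [hN, hMdef]
    rw [min_eq_right h1.2.le, max_eq_right h1.1.le]
  exact (hpar.continuousAt.congr (heq.mono fun a h => h.symm)).continuousWithinAt

theorem Rot_zero {H : ℝ → ℝ} : Rot H 0 = 2 * π * H 0 := by
  simp [Rot]

/-- If all rotations are rational then `H x + H (-x) = 2`. -/
theorem H_add_eq_two {H : ℝ → ℝ} (hH : ContinuousOn H (Ioo (-1) 1)) (h0 : H 0 = 1)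
    (h : ∀ a ∈ Ioo (0 : ℝ) 1, ∃ k m : ℤ, 0 < k ∧ k * Rot H a = 2 * π * m) :
    ∀ x ∈ Ico (0 : ℝ) 1, H x + H (-x) = 2 := by
  have hconst := rational_const (Rot_cont hH) h
  have hR0 : Rot H 0 = 2 * π := by rw [Rot_zero, h0, mul_one]
  set M : ℝ → ℝ := fun x => H x / (1 - x ^ 2) with hMdef
  have hM : ContinuousOn M (Ioo (-1) 1) := by
    apply hH.div (by fun_prop)
    intro x hx
    have : x ^ 2 < 1 := by nlinarith [hx.1, hx.2]
    linarith
  set F : ℝ → ℝ := fun x => M x + M (-x) - 2 / (1 - x ^ 2) with hFdef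
  have hneg : ∀ x ∈ Ico (0 : ℝ) 1, -x ∈ Ioo (-1 : ℝ) 1 :=
    fun x hx => ⟨by linarith [hx.2], by linarith [hx.1]⟩
  have hsubs : Ico (0 : ℝ) 1 ⊆ Ioo (-1) 1 := fun x hx => ⟨by linarith [hx.1], hx.2⟩
  have hF : ContinuousOn F (Ico 0 1) := by
    apply ContinuousOn.sub
    · apply (hM.mono hsubs).add
      exact hM.comp (by fun_prop) hneg
    · apply ContinuousOn.div (by fun_prop) (by fun_prop)
      intro x hx
      have : x ^ 2 < 1 := by nlinarith [hx.1, hx.2]
      linarith
  have hMc : ∀ a : ℝ, |a| < 1 → Continuous fun χ : ℝ => M (a * sin χ) := by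
    intro a ha
    rw [← continuousOn_univ]
    exact hM.comp (by fun_prop) (fun χ _ => sin_mem_of_lt ha χ)
  have hzero : ∀ a ∈ Ico (0 : ℝ) 1, ∫ χ in (0 : ℝ)..(π / 2), F (a * sin χ) = 0 := by
    intro a ha
    have ha1 : |a| < 1 := by rw [abs_of_nonneg ha.1]; exact ha.2
    have ha2 : |(-a)| < 1 := by rwa [abs_neg]
    have hc1 := hMc a ha1
    have hc2 := hMc (-a) ha2
    have hI : ∀ (g : ℝ → ℝ), Continuous g → ∀ x y : ℝ,
        IntervalIntegrable g MeasureTheory.volume x y := fun g hg x y => hg.intervalIntegrable x y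
    -- halves
    have half : ∀ b : ℝ, |b| < 1 → (∫ χ in (0 : ℝ)..π, M (b * sin χ)) =
        2 * ∫ χ in (0 : ℝ)..(π / 2), M (b * sin χ) := by
      intro b hb
      have hc := hMc b hb
      have h1 := intervalIntegral.integral_add_adjacent_intervals (hI _ hc 0 (π / 2))
        (hI _ hc (π / 2) π)
      have h2 : ∫ x in (π / 2)..π, M (b * sin x) = ∫ x in (0 : ℝ)..(π / 2), M (b * sin x) := by
        have := intervalIntegral.integral_comp_sub_left (a := (0 : ℝ)) (b := π / 2)
          (fun x => M (b * sin x)) π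
        simp only [sin_pi_sub] at this
        rw [this]
        congr 1 <;> ring
      rw [← h1, h2]; ring
    have full : (∫ χ in (0 : ℝ)..(2 * π), M (a * sin χ)) =
        (∫ χ in (0 : ℝ)..π, M (a * sin χ)) + ∫ χ in (0 : ℝ)..π, M (-a * sin χ) := by
      have h1 := intervalIntegral.integral_add_adjacent_intervals (hI _ hc1 0 π)
        (hI _ hc1 π (2 * π))
      rw [← h1]
      congr 1
      have := intervalIntegral.integral_comp_add_right (a := (0 : ℝ)) (b := π)
        (fun x => M (a * sin x)) π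
      simp only [sin_add_pi, mul_neg, zero_add] at this
      rw [show (2 : ℝ) * π = π + π by ring, ← this]
      simp only [neg_mul]
    have hRot : sqrt (1 - a ^ 2) * (∫ χ in (0 : ℝ)..(2 * π), M (a * sin χ)) = 2 * π := by
      have := hconst a ha
      rw [hR0] at this
      exact this
    have hs : 0 < sqrt (1 - a ^ 2) := by
      apply sqrt_pos.mpr; nlinarith [ha.1, ha.2]
    have hsph := integral_sphere ha.1 ha.2
    have hcs : Continuous fun χ : ℝ => 1 / (1 - (a * sin χ) ^ 2) := by
      apply Continuous.div continuous_const (by fun_prop)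
      intro χ
      have h1 := sin_mem_of_lt ha1 χ
      have : (a * sin χ) ^ 2 < 1 := by nlinarith [h1.1, h1.2]
      linarith
    have e : (∫ χ in (0 : ℝ)..(π / 2), F (a * sin χ)) =
        (∫ χ in (0 : ℝ)..(π / 2), M (a * sin χ)) + (∫ χ in (0 : ℝ)..(π / 2), M (-a * sin χ)) -
        2 * ∫ χ in (0 : ℝ)..(π / 2), 1 / (1 - (a * sin χ) ^ 2) := by
      have e1 : (∫ χ in (0 : ℝ)..(π / 2), F (a * sin χ)) = ∫ χ in (0 : ℝ)..(π / 2),
          ((M (a * sin χ) + M (-a * sin χ)) - 2 * (1 / (1 - (a * sin χ) ^ 2))) := by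
        congr 1
        ext χ
        simp only [hFdef, neg_mul]
        ring
      have i1 : IntervalIntegrable (fun χ => M (a * sin χ) + M (-a * sin χ))
          MeasureTheory.volume 0 (π / 2) := hI _ (hc1.add hc2) _ _
      have i2 : IntervalIntegrable (fun χ => 2 * (1 / (1 - (a * sin χ) ^ 2)))
          MeasureTheory.volume 0 (π / 2) := hI _ (continuous_const.mul hcs) _ _
      rw [e1, intervalIntegral.integral_sub i1 i2, intervalIntegral.integral_add (hI _ hc1 _ _)
        (hI _ hc2 _ _), intervalIntegral.integral_const_mul]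
    rw [e, hsph]
    rw [full, half a ha1, half (-a) ha2] at hRot
    have h5 : (∫ χ in (0 : ℝ)..(π / 2), M (a * sin χ)) +
        (∫ χ in (0 : ℝ)..(π / 2), M (-a * sin χ)) = π / sqrt (1 - a ^ 2) := by
      rw [eq_div_iff hs.ne']
      linarith
    rw [h5]
    field_simp
    ring
  intro x hx
  have h1 := abel_zero hF hzero x hx
  simp only [hFdef, hMdef] at h1
  have h2 : 1 - x ^ 2 ≠ 0 := by
    have : x ^ 2 < 1 := by nlinarith [hx.1, hx.2]
    linarith
  have h3 : (-x) ^ 2 = x ^ 2 := by ring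
  rw [h3] at h1
  field_simp at h1
  linarith

end Pool.Agent.Rev
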