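import Pool.Agent.Rev.Main

set_option autoImplicit false
open scoped ContDiff
open Real Set

namespace Pool.Agent.Rev

variable {K : Set E3} {f : E3 → ℝ} {w : ℝ}

/-- A linear isometry taking the third coordinate vector to a given unit vector. -/
lemma exists_frame {v : E3} (hv : ‖v‖ = 1) : ∃ g : E3 ≃ₗᵢ[ℝ] E3, g (pt 0 0 1) = v := by
  have h : ‖pt 0 0 1‖ = ‖v‖ := by
    have h1 := norm_pt_sq 0 0 1
    rw [hv]
    have h2 : ‖pt 0 0 1‖ ^ 2 = 1 := by rw [h1]; norm_num
    exact (pow_eq_one_iff_of_nonneg (norm_nonneg _) two_ne_zero).mp h2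
  exact ⟨(ℝ ∙ (pt 0 0 1 - v))ᗮ.reflection, Submodule.reflection_sub h⟩

lemma grad_comp (hf : Differentiable ℝ f) (g : E3 ≃ₗᵢ[ℝ] E3) (c x : E3) :
    g (gradient (fun y => f (g y + c)) x) = gradient f (g x + c) := by
  have h1 : HasFDerivAt (fun y => g y + c) (g : E3 →L[ℝ] E3) x :=
    ((g : E3 →L[ℝ] E3).hasFDerivAt).add_const c
  have h2 : HasFDerivAt (fun y => f (g y + c)) ((fderiv ℝ f (g x + c)).comp (g : E3 →L[ℝ] E3)) x :=
    (hf (g x + c)).hasFDerivAt.comp x h1
  apply ext_inner_right ℝ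
  intro y
  rw [inner_gradient_left, ← g.symm.inner_map_map, g.symm_apply_apply, inner_gradient_left, h2.fderiv]
  simp

lemma sSup_shift (hK : IsCompact K) (hne : K.Nonempty) (g : E3 ≃ₗᵢ[ℝ] E3) (c u : E3) :
    sSup ((fun x => inner ℝ x u) '' {x | g x + c ∈ K}) =
      sSup ((fun x => inner ℝ x (g u)) '' K) - inner ℝ c (g u) := by
  have hbdd : BddAbove ((fun x => inner ℝ x (g u)) '' K) :=
    (hK.image (by fun_prop)).bddAbove
  have h1 : IsLUB ((fun x => inner ℝ x (g u)) '' K) (sSup ((fun x => inner ℝ x (g u)) '' K)) :=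
    isLUB_csSup (hne.image _) hbdd
  apply IsLUB.csSup_eq
  · constructor
    · rintro _ ⟨x, hx, rfl⟩
      have := h1.1 ⟨g x + c, hx, rfl⟩
      simp only [inner_add_left, g.inner_map_map] at this
      simp only
      linarith
    · intro b hb
      have : sSup ((fun x => inner ℝ x (g u)) '' K) ≤ b + inner ℝ c (g u) := by
        apply h1.2
        rintro _ ⟨y, hy, rfl⟩
        have hy' : g (g.symm (y - c)) + c = y := by simp
        have := hb ⟨g.symm (y - c), by simpa [hy'] using hy, rfl⟩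
        simp only at this
        rw [← g.inner_map_map, g.apply_symm_apply, inner_sub_left] at this
        simp only
        linarith
      linarith
  · obtain ⟨y, hy⟩ := hne
    exact ⟨_, g.symm (y - c), by simpa using hy, rfl⟩

lemma body_comp (hsm : ContDiff ℝ ∞ f) (heq : K = {x | f x ≤ 0})
    (hreg : ∀ x, f x = 0 → gradient f x ≠ 0) (hconv : Convex ℝ K) (hcpt : IsCompact K)
    (hint : (interior K).Nonempty) (hw : 0 < w)
    (hwidth : ∀ u : E3, ‖u‖ = 1 →
      sSup ((fun x => inner ℝ x u) '' K) + sSup ((fun x => inner ℝ x (-u)) '' K) = w)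
    (c v : E3) (hrev : ∀ x ∈ K, ∀ y : E3, inner ℝ (y - c) v = inner ℝ (x - c) v →
      ‖y - c‖ = ‖x - c‖ → y ∈ K) (g : E3 ≃ₗᵢ[ℝ] E3) (hg : g (pt 0 0 1) = v) :
    Body {x | g x + c ∈ K} (fun x => f (g x + c)) w := by
  have hne : K.Nonempty := hint.mono interior_subset
  have hT : Continuous (fun x : E3 => g x + c) := by fun_prop
  have hz : ∀ x : E3, inner ℝ (g x) v = x 2 := by
    intro x
    rw [← hg, g.inner_map_map]
    conv_lhs => rw [← pt_eta x]
    rw [inner_pt]
    ring
  refine ⟨?_, ?_, ?_, ?_, ?_, ?_, hw, ?_, ?_⟩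
  · exact hsm.comp (by fun_prop)
  · rw [heq]; rfl
  · intro x hx h0
    apply hreg _ hx
    rw [← grad_comp (hsm.differentiable (by simp)) g c x, h0, map_zero]
  · have h1 : {x | g x + c ∈ K} =
        (fun x => g x + c) ⁻¹' K := rfl
    rw [h1]
    intro x hx y hy a b ha hb hab
    have h2 := hconv hx hy ha hb hab
    simp only [mem_preimage, map_add, map_smul] at h2 ⊢
    have h3 : a • g x + b • g y + c = a • (g x + c) + b • (g y + c) := by
      rw [smul_add, smul_add]
      have : c = a • c + b • c := by rw [← add_smul, hab, one_smul]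
      nth_rewrite 1 [this]
      abel
    rw [h3]
    exact h2
  · have h1 : {x | g x + c ∈ K} = (fun y => g.symm (y - c)) '' K := by
      ext x
      constructor
      · intro hx
        exact ⟨g x + c, hx, by simp⟩
      · rintro ⟨y, hy, rfl⟩
        simpa using hy
    rw [h1]
    exact hcpt.image (by fun_prop)
  · obtain ⟨y, hy⟩ := hint
    refine ⟨g.symm (y - c), ?_⟩
    have h1 : IsOpen ((fun x : E3 => g x + c) ⁻¹' interior K) := isOpen_interior.preimage hT
    have hsub : (fun x : E3 => g x + c) ⁻¹' interior K ⊆ {x | g x + c ∈ K} :=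
      fun x (hx : g x + c ∈ interior K) => (interior_subset hx : g x + c ∈ K)
    refine interior_maximal hsub h1 ?_
    rw [mem_preimage, g.apply_symm_apply, sub_add_cancel]
    exact hy
  · intro u hu
    have h1 := hwidth (g u) (by rw [g.norm_map, hu])
    rw [sSup_shift hcpt hne g c u, sSup_shift hcpt hne g c (-u), map_neg, inner_neg_right c]
    linarith
  · intro x hx y h2 hn
    apply hrev _ hx
    · rw [add_sub_cancel_right, add_sub_cancel_right, hz, hz, h2]
    · rw [add_sub_cancel_right, add_sub_cancel_right, g.norm_map, g.norm_map, hn]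

lemma closed_comp (hsm : ContDiff ℝ ∞ f) (hcl : AllClosed f) (g : E3 ≃ₗᵢ[ℝ] E3) (c : E3) :
    AllClosed (fun x => f (g x + c)) := by
  intro γ hγ h0 h1 h2
  have hd1 : deriv (fun t => g (γ t) + c) = fun t => g (deriv γ t) := by
    funext t
    have hγd : HasDerivAt γ (deriv γ t) t := (hγ.differentiable (by simp) t).hasDerivAt
    have := ((g : E3 →L[ℝ] E3).hasFDerivAt.comp_hasDerivAt t hγd).add_const c
    exact this.deriv
  have hγ1 : ContDiff ℝ ∞ (deriv γ) := by
    have := hγ.iterate_deriv 1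
    simpa using this
  have hd2 : deriv (fun t => g (deriv γ t)) = fun t => g (deriv (deriv γ) t) := by
    funext t
    have hγd : HasDerivAt (deriv γ) (deriv (deriv γ) t) t :=
      (hγ1.differentiable (by simp) t).hasDerivAt
    have := ((g : E3 →L[ℝ] E3).hasFDerivAt.comp_hasDerivAt t hγd)
    exact this.deriv
  obtain ⟨T, hT, hper⟩ := hcl (fun t => g (γ t) + c)
    (by
      have : ContDiff ℝ ∞ (fun x : E3 => g x + c) := by fun_prop
      exact this.comp hγ) h0
    (by intro t; rw [hd1]; simp only [g.norm_map]; exact h1 t)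
    (by
      intro t
      obtain ⟨l, hl⟩ := h2 t
      refine ⟨l, ?_⟩
      rw [iteratedDeriv_succ, iteratedDeriv_one] at hl ⊢
      rw [hd1, hd2]
      simp only
      rw [hl, map_smul, grad_comp (hsm.differentiable (by simp))])
  refine ⟨T, hT, fun t => ?_⟩
  have h3 := hper t
  simp only [add_left_inj] at h3
  exact g.injective h3

/-- Bodies of revolution of constant width all of whose geodesics are closed are balls. -/
theorem main_axis (hsm : ContDiff ℝ ∞ f) (heq : K = {x | f x ≤ 0})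
    (hreg : ∀ x, f x = 0 → gradient f x ≠ 0) (hconv : Convex ℝ K) (hcpt : IsCompact K)
    (hint : (interior K).Nonempty)
    (hwidth : ∃ w : ℝ, 0 < w ∧ ∀ u : E3, ‖u‖ = 1 →
      sSup ((fun x => inner ℝ x u) '' K) + sSup ((fun x => inner ℝ x (-u)) '' K) = w)
    (hrev : ∃ c v : E3, ‖v‖ = 1 ∧ ∀ x ∈ K, ∀ y : E3,
      inner ℝ (y - c) v = inner ℝ (x - c) v → ‖y - c‖ = ‖x - c‖ → y ∈ K)
    (hcl : AllClosed f) :
    ∃ (c : E3) (r : ℝ), K = Metric.closedBall c r := by
  obtain ⟨w, hw, hwid⟩ := hwidth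
  obtain ⟨c, v, hv, hr⟩ := hrev
  obtain ⟨g, hg⟩ := exists_frame hv
  obtain ⟨c', r, h⟩ := body_ball
    (body_comp hsm heq hreg hconv hcpt hint hw hwid c v hr g hg) (closed_comp hsm hcl g c)
  refine ⟨g c' + c, r, ?_⟩
  ext y
  have h1 : g.symm (y - c) ∈ {x | g x + c ∈ K} ↔ g.symm (y - c) ∈ Metric.closedBall c' r := by
    rw [h]
  simp only [mem_ofPred_eq, g.apply_symm_apply, sub_add_cancel] at h1
  rw [h1, mem_closedBall_iff_norm, mem_closedBall_iff_norm, ← g.norm_map, map_sub,
    g.apply_symm_apply, sub_add_eq_sub_sub, sub_right_comm]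

end Pool.Agent.Rev
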