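import Pool.Agent.Rev.Defs

/-!
Support points of a convex body of constant width with smooth regular boundary.
-/

set_option autoImplicit false
open scoped ContDiff
open Real Set

namespace Pool.Agent.Rev

variable {K : Set E3} {f : E3 → ℝ} {w : ℝ}

/-- the derivative of `f` along a line -/
theorem line_deriv (hB : Body K f w) (p d : E3) :
    HasDerivAt (fun t : ℝ => f (p + t • d)) (inner ℝ (gradient f p) d) 0 := by
  have h1 : DifferentiableAt ℝ f p := (hB.smooth.differentiable (by simp)) p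
  have h2 := h1.hasGradientAt.hasFDerivAt
  have h3 : HasDerivAt (fun t : ℝ => p + t • d) d 0 := by
    have := ((hasDerivAt_id (0 : ℝ)).smul_const d).const_add p
    simpa using this
  have h4 : HasFDerivAt f (InnerProductSpace.toDual ℝ E3 (gradient f p)) (p + (0 : ℝ) • d) := by
    rw [zero_smul, add_zero]; exact h2
  have h5 : HasDerivAt (fun t : ℝ => f (p + t • d))
      ((InnerProductSpace.toDual ℝ E3 (gradient f p)) d) 0 := h4.comp_hasDerivAt (0 : ℝ) h3
  rw [InnerProductSpace.toDual_apply_apply] at h5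
  exact h5

theorem line_neg (hB : Body K f w) {p d : E3} (hp : f p = 0)
    (hd : inner ℝ (gradient f p) d < 0) : ∃ t : ℝ, 0 < t ∧ p + t • d ∈ K := by
  have h := line_deriv hB p d
  have h1 : ∀ᶠ t in nhdsWithin (0 : ℝ) (Ioi 0), slope (fun t : ℝ => f (p + t • d)) 0 t < 0 :=
    (hasDerivAt_iff_tendsto_slope.1 h).mono_left
      (nhdsWithin_mono _ (by intro x hx; exact ne_of_gt hx)) |>.eventually
      (gt_mem_nhds hd)
  obtain ⟨t, ht, ht0⟩ := (h1.and self_mem_nhdsWithin).exists
  refine ⟨t, ht0, ?_⟩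
  have ht0' : (0 : ℝ) < t := ht0
  rw [slope_def_field] at ht
  simp only [zero_smul, add_zero, hp, sub_zero] at ht
  rw [hB.eq]
  have : f (p + t • d) < 0 := by
    rcases div_neg_iff.1 ht with ⟨_, h2⟩ | ⟨h2, _⟩
    · linarith
    · exact h2
  exact this.le

theorem line_pos (hB : Body K f w) {p d : E3} (hp : f p = 0)
    (hd : 0 < inner ℝ (gradient f p) d) : ∃ t : ℝ, 0 < t ∧ t < 1 ∧ 0 < f (p + t • d) := by
  have h := line_deriv hB p d
  have h1 : ∀ᶠ t in nhdsWithin (0 : ℝ) (Ioi 0), 0 < slope (fun t : ℝ => f (p + t • d)) 0 t :=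
    (hasDerivAt_iff_tendsto_slope.1 h).mono_left
      (nhdsWithin_mono _ (by intro x hx; exact ne_of_gt hx)) |>.eventually
      (lt_mem_nhds hd)
  have h2 : ∀ᶠ t in nhdsWithin (0 : ℝ) (Ioi 0), t < 1 :=
    mem_nhdsWithin_of_mem_nhds (gt_mem_nhds one_pos)
  obtain ⟨t, ⟨ht, ht1⟩, ht0⟩ := ((h1.and h2).and self_mem_nhdsWithin).exists
  refine ⟨t, ht0, ht1, ?_⟩
  have ht0' : (0 : ℝ) < t := ht0
  rw [slope_def_field] at ht
  simp only [zero_smul, add_zero, hp, sub_zero] at ht
  rcases div_pos_iff.1 ht with ⟨h2, _⟩ | ⟨_, h2⟩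
  · exact h2
  · linarith

/-- At a support point the gradient of `f` is a positive multiple of the normal. -/
theorem nor_grad (hB : Body K f w) {p u : E3} (h : Nor K p u) :
    f p = 0 ∧ gradient f p = ‖gradient f p‖ • u := by
  obtain ⟨hpK, hu, hmax⟩ := h
  have huu : inner ℝ u u = (1 : ℝ) := by rw [real_inner_self_eq_norm_sq, hu]; norm_num
  have hp0 : f p = 0 := by
    by_contra hne
    have hle : f p ≤ 0 := by
      have := hpK; rw [hB.eq] at this; exact this
    have hlt : f p < 0 := lt_of_le_of_ne hle hne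
    have hc : Continuous (fun t : ℝ => f (p + t • u)) :=
      hB.smooth.continuous.comp (by fun_prop)
    have h1 : ∀ᶠ t in nhds (0 : ℝ), f (p + t • u) < 0 := by
      have := hc.tendsto 0
      simp only [zero_smul, add_zero] at this
      exact this.eventually (gt_mem_nhds hlt)
    obtain ⟨t, ht, ht0⟩ := ((h1.filter_mono nhdsWithin_le_nhds).and
      (self_mem_nhdsWithin (a := (0 : ℝ)) (s := Ioi 0))).exists
    have ht0' : (0 : ℝ) < t := ht0
    have hm : p + t • u ∈ K := by rw [hB.eq]; exact ht.le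
    have := hmax _ hm
    rw [inner_add_left, real_inner_smul_left, huu] at this
    linarith
  refine ⟨hp0, ?_⟩
  set g := gradient f p with hg
  have hg0 : g ≠ 0 := hB.reg p hp0
  have hgn : 0 < ‖g‖ := norm_pos_iff.2 hg0
  have hgg : inner ℝ g g = ‖g‖ ^ 2 := real_inner_self_eq_norm_sq g
  have hcs : inner ℝ g u ≤ ‖g‖ := by
    have := real_inner_le_norm g u; rwa [hu, mul_one] at this
  have key : ∀ e : ℝ, 0 < e → ‖g‖ ≤ (1 + e) * inner ℝ g u := by
    intro e he
    have hd : inner ℝ g (‖g‖ • u - (1 + e) • g) < 0 := by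
      rw [inner_sub_right, real_inner_smul_right, real_inner_smul_right, hgg]
      have h1 : ‖g‖ * inner ℝ g u ≤ ‖g‖ * ‖g‖ := mul_le_mul_of_nonneg_left hcs hgn.le
      nlinarith [mul_pos he (mul_pos hgn hgn)]
    obtain ⟨t, ht, hm⟩ := line_neg hB hp0 hd
    have h2 := hmax _ hm
    rw [inner_add_left, real_inner_smul_left] at h2
    have h3 : inner ℝ (‖g‖ • u - (1 + e) • g) u ≤ 0 := by
      by_contra hcon
      push Not at hcon
      have := mul_pos ht hcon
      linarith
    rw [inner_sub_left, real_inner_smul_left, real_inner_smul_left, huu] at h3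
    linarith
  have hge : ‖g‖ ≤ inner ℝ g u := by
    by_contra hcon
    push Not at hcon
    have hpos : 0 < inner ℝ g u := by
      have := key 1 one_pos
      nlinarith
    have h1 := key ((‖g‖ - inner ℝ g u) / (2 * inner ℝ g u)) (by
      apply div_pos <;> linarith)
    have h2 : (1 + (‖g‖ - inner ℝ g u) / (2 * inner ℝ g u)) * inner ℝ g u =
        inner ℝ g u + (‖g‖ - inner ℝ g u) / 2 := by
      field_simp
    rw [h2] at h1
    linarith
  have hz : ‖g - ‖g‖ • u‖ ^ 2 ≤ 0 := by
    rw [norm_sub_sq_real, real_inner_smul_right, norm_smul, norm_norm, hu]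
    nlinarith
  have hz' : ‖g - ‖g‖ • u‖ = 0 := by
    have := sq_nonneg ‖g - ‖g‖ • u‖
    exact pow_eq_zero_iff (two_ne_zero) |>.1 (le_antisymm hz this)
  exact sub_eq_zero.1 (norm_eq_zero.1 hz')

/-- Every boundary point has the normalised gradient as outer normal. -/
theorem grad_nor (hB : Body K f w) {p : E3} (hp : f p = 0) :
    Nor K p (‖gradient f p‖⁻¹ • gradient f p) := by
  have hg0 : gradient f p ≠ 0 := hB.reg p hp
  have hgn : 0 < ‖gradient f p‖ := norm_pos_iff.2 hg0
  have hpK : p ∈ K := by rw [hB.eq]; exact hp.le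
  refine ⟨hpK, ?_, ?_⟩
  · rw [norm_smul, norm_inv, norm_norm, inv_mul_cancel₀ hgn.ne']
  · intro q hq
    rw [real_inner_smul_right, real_inner_smul_right]
    refine mul_le_mul_of_nonneg_left ?_ (by positivity)
    by_contra hcon
    push Not at hcon
    have h1 : 0 < inner ℝ (gradient f p) (q - p) := by
      rw [inner_sub_right, real_inner_comm q, real_inner_comm p]
      linarith
    obtain ⟨t, ht, ht1, hf⟩ := line_pos hB hp h1
    have hm : p + t • (q - p) ∈ K := by
      have := hB.conv hpK hq (sub_nonneg.2 ht1.le) ht.le (by ring)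
      convert this using 1
      rw [sub_smul, one_smul, smul_sub]; abel
    rw [hB.eq] at hm
    exact absurd hm (not_le.2 hf)

theorem body_nonempty (hB : Body K f w) : K.Nonempty :=
  hB.int.mono interior_subset

theorem nor_exists (hB : Body K f w) {u : E3} (hu : ‖u‖ = 1) : ∃ p, Nor K p u := by
  obtain ⟨p, hp, hm⟩ := hB.cpt.exists_isMaxOn (body_nonempty hB)
    (f := fun x : E3 => (inner ℝ x u : ℝ)) (by fun_prop)
  exact ⟨p, hp, hu, fun q hq => hm hq⟩

theorem sup_eq {K : Set E3} {p u : E3} (h : Nor K p u) :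
    sSup ((fun x => (inner ℝ x u : ℝ)) '' K) = inner ℝ p u := by
  apply le_antisymm
  · apply csSup_le (Set.Nonempty.image _ ⟨p, h.1⟩)
    rintro _ ⟨q, hq, rfl⟩
    exact h.2.2 q hq
  · apply le_csSup
    · exact ⟨inner ℝ p u, by rintro _ ⟨q, hq, rfl⟩; exact h.2.2 q hq⟩
    · exact ⟨p, h.1, rfl⟩

/-- two opposite support points span the width -/
theorem nor_pair (hB : Body K f w) {p y u : E3} (h : Nor K p u) (hy : Nor K y (-u)) :
    inner ℝ p u - inner ℝ y u = w := by
  have h1 := hB.width u h.2.1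
  rw [sup_eq h, sup_eq hy, inner_neg_right] at h1
  linarith

/-- Width inequality: for an outer normal `u` at `p`, all of `K` lies in the slab of width `w`. -/
theorem nor_slab (hB : Body K f w) {p u q : E3} (h : Nor K p u) (hq : q ∈ K) :
    inner ℝ p u - w ≤ inner ℝ q u := by
  obtain ⟨y, hy⟩ := nor_exists hB (u := -u) (by rw [norm_neg]; exact h.2.1)
  have h1 := nor_pair hB h hy
  have h2 := hy.2.2 q hq
  rw [inner_neg_right, inner_neg_right] at h2
  linarith

/-- the diameter is at most the width -/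
theorem diam_le (hB : Body K f w) {x y : E3} (hx : x ∈ K) (hy : y ∈ K) : ‖x - y‖ ≤ w := by
  by_cases hxy : x = y
  · rw [hxy, sub_self, norm_zero]; exact hB.wpos.le
  have hn : 0 < ‖x - y‖ := norm_pos_iff.2 (sub_ne_zero.2 hxy)
  set v : E3 := ‖x - y‖⁻¹ • (x - y) with hv
  have hv1 : ‖v‖ = 1 := by
    rw [hv, norm_smul, norm_inv, norm_norm, inv_mul_cancel₀ hn.ne']
  obtain ⟨p, hp⟩ := nor_exists hB hv1
  have h1 := nor_slab hB hp hy
  have h2 := hp.2.2 x hx
  have h3 : inner ℝ x v - inner ℝ y v = ‖x - y‖ := by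
    rw [← inner_sub_left, hv, real_inner_smul_right, real_inner_self_eq_norm_sq]
    field_simp
  linarith

theorem eq_of_width (hB : Body K f w) {x y u : E3} (hx : x ∈ K) (hy : y ∈ K) (hu : ‖u‖ = 1)
    (h : inner ℝ x u - inner ℝ y u = w) : x - y = w • u := by
  have h1 := diam_le hB hx hy
  have h2 : ‖(x - y) - w • u‖ ^ 2 ≤ 0 := by
    rw [norm_sub_sq_real, real_inner_smul_right, inner_sub_left, h, norm_smul, hu,
      Real.norm_of_nonneg hB.wpos.le]
    have h3 : ‖x - y‖ ^ 2 ≤ w ^ 2 := by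
      have := norm_nonneg (x - y)
      nlinarith
    nlinarith
  have h3 : ‖(x - y) - w • u‖ = 0 :=
    pow_eq_zero_iff (two_ne_zero) |>.1 (le_antisymm h2 (sq_nonneg _))
  exact sub_eq_zero.1 (norm_eq_zero.1 h3)

theorem nor_opp (hB : Body K f w) {p u : E3} (h : Nor K p u) : Nor K (p - w • u) (-u) := by
  obtain ⟨y, hy⟩ := nor_exists hB (u := -u) (by rw [norm_neg]; exact h.2.1)
  have h1 := eq_of_width hB h.1 hy.1 h.2.1 (nor_pair hB h hy)
  have h2 : p - w • u = y := by rw [← h1]; abel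
  rw [h2]; exact hy

theorem nor_unique (hB : Body K f w) {p q u : E3} (hp : Nor K p u) (hq : Nor K q u) : p = q := by
  have h1 := nor_opp hB hq
  have h2 : inner ℝ p u = inner ℝ q u := le_antisymm (hq.2.2 p hp.1) (hp.2.2 q hq.1)
  have h3 := eq_of_width hB hp.1 h1.1 hp.2.1 (by
    rw [inner_sub_left, real_inner_smul_left, real_inner_self_eq_norm_sq, hp.2.1, h2]; ring)
  have h4 : p - q + w • u = w • u := by
    have e : p - q + w • u = p - (q - w • u) := by abel
    rw [e, h3]
  have h5 : p - q = 0 := by simpa using h4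
  exact sub_eq_zero.1 h5

theorem mem_of_sq (hB : Body K f w) {a b c x y z : ℝ} (h : pt a b c ∈ K) (hz : z = c)
    (hs : x ^ 2 + y ^ 2 = a ^ 2 + b ^ 2) : pt x y z ∈ K := by
  refine hB.rev _ h _ (by simp [hz]) ?_
  have h1 : ‖pt x y z‖ ^ 2 = ‖pt a b c‖ ^ 2 := by
    rw [norm_pt_sq, norm_pt_sq, hz]; linarith
  exact (sq_eq_sq₀ (norm_nonneg _) (norm_nonneg _)).1 h1

theorem norm_eq_one_iff (x y z : ℝ) : ‖pt x y z‖ = 1 ↔ x ^ 2 + y ^ 2 + z ^ 2 = 1 := by
  rw [← norm_pt_sq]
  constructor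
  · intro h; rw [h]; norm_num
  · intro h
    have := norm_nonneg (pt x y z)
    nlinarith

/-- Rotation about the axis. -/
theorem nor_rot (hB : Body K f w) {a b c d : ℝ} (h : Nor K (pt a 0 b) (pt c 0 d)) (θ : ℝ) :
    Nor K (pt (a * cos θ) (a * sin θ) b) (pt (c * cos θ) (c * sin θ) d) := by
  have hcs := sin_sq_add_cos_sq θ
  obtain ⟨h1, h2, h3⟩ := h
  refine ⟨?_, ?_, ?_⟩
  · refine mem_of_sq hB h1 rfl ?_
    linear_combination (a ^ 2) * hcs
  · rw [norm_eq_one_iff] at h2 ⊢
    linear_combination h2 + (c ^ 2) * hcs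
  · intro q hq
    have hq' : pt (q 0) (q 1) (q 2) ∈ K := by rw [pt_eta]; exact hq
    have h4 : pt (q 0 * cos θ + q 1 * sin θ) (-(q 0 * sin θ) + q 1 * cos θ) (q 2) ∈ K := by
      refine mem_of_sq hB hq' rfl ?_
      linear_combination (q 0 ^ 2 + q 1 ^ 2) * hcs
    have h5 := h3 _ h4
    rw [← pt_eta q, inner_pt, inner_pt]
    rw [inner_pt, inner_pt] at h5
    have h6 : a * cos θ * (c * cos θ) + a * sin θ * (c * sin θ) + b * d =
        a * c + 0 * 0 + b * d := by
      linear_combination (a * c) * hcs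
    rw [h6]
    refine le_trans (le_of_eq ?_) h5
    ring

/-- Reflection in the plane `x = 0`. -/
theorem nor_refl (hB : Body K f w) {a b c d : ℝ} (h : Nor K (pt a 0 b) (pt c 0 d)) :
    Nor K (pt (-a) 0 b) (pt (-c) 0 d) := by
  have := nor_rot hB h π
  simpa using this

/-- reflection in the plane `y = 0` -/
theorem nor_refly (hB : Body K f w) {a b c x y z : ℝ} (h : Nor K (pt a b c) (pt x y z)) :
    Nor K (pt a (-b) c) (pt x (-y) z) := by
  obtain ⟨h1, h2, h3⟩ := h
  refine ⟨mem_of_sq hB h1 rfl (by ring), ?_, ?_⟩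
  · rw [norm_eq_one_iff] at h2 ⊢
    linarith
  · intro q hq
    have hq' : pt (q 0) (q 1) (q 2) ∈ K := by rw [pt_eta]; exact hq
    have h4 : pt (q 0) (-(q 1)) (q 2) ∈ K := mem_of_sq hB hq' rfl (by ring)
    have h5 := h3 _ h4
    rw [← pt_eta q, inner_pt, inner_pt]
    rw [inner_pt, inner_pt] at h5
    linarith

/-- A point whose normal lies in the plane `y = 0` lies in this plane. -/
theorem nor_planar (hB : Body K f w) {p : E3} {c d : ℝ} (h : Nor K p (pt c 0 d)) : p 1 = 0 := by
  have h1 : Nor K (pt (p 0) (p 1) (p 2)) (pt c 0 d) := by rw [pt_eta]; exact h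
  have h2 := nor_refly hB h1
  rw [neg_zero] at h2
  have h3 := nor_unique hB h1 h2
  have h4 : p 1 = -(p 1) := by
    have := congrArg (fun v : E3 => v 1) h3
    simpa using this
  linarith

/-- A boundary point in the plane `y = 0` has a normal in this plane. -/
theorem planar_nor (hB : Body K f w) {a b : ℝ} (h : f (pt a 0 b) = 0) :
    ∃ c d, Nor K (pt a 0 b) (pt c 0 d) ∧ c ^ 2 + d ^ 2 = 1 := by
  have h1 := grad_nor hB h
  set n : E3 := ‖gradient f (pt a 0 b)‖⁻¹ • gradient f (pt a 0 b) with hn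
  have h2 : Nor K (pt a 0 b) (pt (n 0) (n 1) (n 2)) := by rw [pt_eta]; exact h1
  have h3 := nor_refly hB h2
  rw [neg_zero] at h3
  have hg0 : gradient f (pt a 0 b) ≠ 0 := hB.reg _ h
  have hgn : ‖gradient f (pt a 0 b)‖ ≠ 0 := (norm_pos_iff.2 hg0).ne'
  have h4 := (nor_grad hB h2).2
  rw [(nor_grad hB h3).2] at h4
  have h5 : (‖gradient f (pt a 0 b)‖ • pt (n 0) (-(n 1)) (n 2)) 1 =
      (‖gradient f (pt a 0 b)‖ • pt (n 0) (n 1) (n 2)) 1 := by
    have e1 := (nor_grad hB h3).2
    have e2 := (nor_grad hB h2).2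
    rw [← e1, ← e2]
  have h6 : n 1 = 0 := by
    simp only [PiLp.smul_apply, pt_one, smul_eq_mul] at h5
    have := mul_left_cancel₀ hgn h5
    linarith
  rw [h6] at h2
  refine ⟨n 0, n 2, h2, ?_⟩
  have := (norm_eq_one_iff _ _ _).1 h2.2.1
  linarith

/-- If every support point is `c + r u` then `K` is a ball. -/
theorem ball_of_nor (hB : Body K f w) (c : E3) (r : ℝ)
    (h : ∀ p u, Nor K p u → p = c + r • u) : K = Metric.closedBall c r := by
  have hinner : ∀ u : E3, ‖u‖ = 1 → ∀ q ∈ K, inner ℝ (q - c) u ≤ r := by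
    intro u hu q hq
    obtain ⟨p, hp⟩ := nor_exists hB hu
    have h1 := hp.2.2 q hq
    rw [h p u hp, inner_add_left, real_inner_smul_left, real_inner_self_eq_norm_sq, hu] at h1
    rw [inner_sub_left]
    linarith
  have hr : 0 ≤ r := by
    obtain ⟨q, hq⟩ := body_nonempty hB
    have hu : ‖pt 1 0 0‖ = 1 := by rw [norm_eq_one_iff]; norm_num
    have h1 := hinner _ hu q hq
    have h2 := hinner (-(pt 1 0 0)) (by rw [norm_neg]; exact hu) q hq
    rw [inner_neg_right] at h2
    linarith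
  ext x
  rw [Metric.mem_closedBall, dist_eq_norm]
  constructor
  · intro hx
    by_cases hxc : x = c
    · rw [hxc, sub_self, norm_zero]; exact hr
    have hn : 0 < ‖x - c‖ := norm_pos_iff.2 (sub_ne_zero.2 hxc)
    have h1 := hinner (‖x - c‖⁻¹ • (x - c)) (by
      rw [norm_smul, norm_inv, norm_norm, inv_mul_cancel₀ hn.ne']) x hx
    rw [real_inner_smul_right, real_inner_self_eq_norm_sq] at h1
    have h2 : ‖x - c‖⁻¹ * ‖x - c‖ ^ 2 = ‖x - c‖ := by field_simp
    rwa [h2] at h1
  · intro hx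
    by_contra hxK
    obtain ⟨g, s, h1, h2⟩ := geometric_hahn_banach_closed_point hB.conv hB.cpt.isClosed hxK
    set v : E3 := (InnerProductSpace.toDual ℝ E3).symm g with hv
    have hgv : ∀ y : E3, g y = inner ℝ v y := by
      intro y
      rw [hv, InnerProductSpace.toDual_symm_apply]
    have hv0 : v ≠ 0 := by
      intro h0
      obtain ⟨q, hq⟩ := body_nonempty hB
      have e1 := h1 q hq
      rw [hgv, h0, inner_zero_left] at e1
      rw [hgv, h0, inner_zero_left] at h2
      linarith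
    have hvn : 0 < ‖v‖ := norm_pos_iff.2 hv0
    obtain ⟨p, hp⟩ := nor_exists hB (u := ‖v‖⁻¹ • v) (by
      rw [norm_smul, norm_inv, norm_norm, inv_mul_cancel₀ hvn.ne'])
    have e1 := h1 p hp.1
    rw [hgv, h _ _ hp, inner_add_right, real_inner_smul_right, real_inner_smul_right,
      real_inner_self_eq_norm_sq] at e1
    have e2 : ‖v‖⁻¹ * ‖v‖ ^ 2 = ‖v‖ := by field_simp
    rw [e2] at e1
    rw [hgv] at h2
    have e3 : inner ℝ v (x - c) ≤ ‖v‖ * r :=
      le_trans (real_inner_le_norm _ _) (mul_le_mul_of_nonneg_left hx hvn.le)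
    rw [inner_sub_right] at e3
    linarith

end Pool.Agent.Rev
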