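import Mathlib

set_option autoImplicit false
open scoped ContDiff
open Real

namespace Pool.Agent.Rev

/-- Euclidean three-space. -/
abbrev E3 := EuclideanSpace ℝ (Fin 3)

/-- The point with given coordinates. -/
noncomputable def pt (x y z : ℝ) : E3 := !₂[x, y, z]

@[simp] lemma pt_zero (x y z : ℝ) : pt x y z 0 = x := rfl
@[simp] lemma pt_one (x y z : ℝ) : pt x y z 1 = y := rfl
@[simp] lemma pt_two (x y z : ℝ) : pt x y z 2 = z := rfl

lemma pt_eta (p : E3) : pt (p 0) (p 1) (p 2) = p := by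
  ext i; fin_cases i <;> rfl

lemma pt_add (a b c x y z : ℝ) : pt a b c + pt x y z = pt (a + x) (b + y) (c + z) := by
  ext i; fin_cases i <;> rfl

lemma pt_sub (a b c x y z : ℝ) : pt a b c - pt x y z = pt (a - x) (b - y) (c - z) := by
  ext i; fin_cases i <;> rfl

lemma pt_neg (x y z : ℝ) : -pt x y z = pt (-x) (-y) (-z) := by
  ext i; fin_cases i <;> rfl

lemma smul_pt (t x y z : ℝ) : t • pt x y z = pt (t * x) (t * y) (t * z) := by
  ext i; fin_cases i <;> rfl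

lemma inner_pt (a b c x y z : ℝ) : inner ℝ (pt a b c) (pt x y z) = a * x + b * y + c * z := by
  simp [pt, PiLp.inner_apply, Fin.sum_univ_three]
  ring

lemma norm_pt_sq (x y z : ℝ) : ‖pt x y z‖ ^ 2 = x ^ 2 + y ^ 2 + z ^ 2 := by
  rw [← real_inner_self_eq_norm_sq, inner_pt]; ring

/-- `p` is a point of `K` at which the unit vector `u` is an outer normal:
`p` maximises the linear function `⟨·, u⟩` over `K`. -/
def Nor (K : Set E3) (p u : E3) : Prop :=
  p ∈ K ∧ ‖u‖ = 1 ∧ ∀ q ∈ K, inner ℝ q u ≤ inner ℝ p u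

/-- A compact convex body `K = {f ≤ 0}` with smooth regular boundary, of constant width `w`,
which is a body of revolution about the third coordinate axis. -/
structure Body (K : Set E3) (f : E3 → ℝ) (w : ℝ) : Prop where
  smooth : ContDiff ℝ ∞ f
  eq : K = {x | f x ≤ 0}
  reg : ∀ x, f x = 0 → gradient f x ≠ 0
  conv : Convex ℝ K
  cpt : IsCompact K
  int : (interior K).Nonempty
  wpos : 0 < w
  width : ∀ u : E3, ‖u‖ = 1 →
    sSup ((fun x => inner ℝ x u) '' K) + sSup ((fun x => inner ℝ x (-u)) '' K) = w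
  rev : ∀ x ∈ K, ∀ y : E3, y 2 = x 2 → ‖y‖ = ‖x‖ → y ∈ K

/-- Every unit speed geodesic of the surface `f = 0` is closed. -/
def AllClosed (f : E3 → ℝ) : Prop :=
  ∀ γ : ℝ → E3, ContDiff ℝ ∞ γ → (∀ t, f (γ t) = 0) → (∀ t, ‖deriv γ t‖ = 1) →
    (∀ t, ∃ c : ℝ, iteratedDeriv 2 γ t = c • gradient f (γ t)) →
    ∃ T : ℝ, 0 < T ∧ ∀ t, γ (t + T) = γ t

/-- The half meridian, parametrised by the angle of the outer normal: `(A φ, 0, B φ)` is the point
with outer unit normal `(cos φ, 0, sin φ)`, and `R φ` is the radius of curvature. -/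
structure Profile (K : Set E3) (A B R : ℝ → ℝ) : Prop where
  smA : ContDiff ℝ ∞ A
  smB : ContDiff ℝ ∞ B
  smR : ContDiff ℝ ∞ R
  Rpos : ∀ φ, 0 < R φ
  dA : ∀ φ, HasDerivAt A (-(R φ * sin φ)) φ
  dB : ∀ φ, HasDerivAt B (R φ * cos φ) φ
  nor : ∀ φ, Nor K (pt (A φ) 0 (B φ)) (pt (cos φ) 0 (sin φ))

/-- The real-analysis content of a profile (`r` is half the width). -/
structure Prof (r : ℝ) (A R : ℝ → ℝ) : Prop where
  rpos : 0 < r
  smA : ContDiff ℝ ∞ A
  smR : ContDiff ℝ ∞ R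
  Rpos : ∀ φ, 0 < R φ
  dA : ∀ φ, HasDerivAt A (-(R φ * sin φ)) φ
  A0 : A 0 = r
  R0 : R 0 = r
  Apos : ∀ φ, |φ| < π / 2 → 0 < A φ
  AN : A (π / 2) = 0
  AS : A (-(π / 2)) = 0
  Asum : ∀ φ, A φ + A (-φ) = 2 * r * cos φ

/-- The function `G`: for `|x| < 1` the normal angle `φ` of the point with radius
`A φ = r √(1 - x²)`, on the northern side for `x > 0` and on the southern side for `x < 0`. -/
structure GF (r : ℝ) (A R G : ℝ → ℝ) : Prop where
  mem : ∀ x, |x| < 1 → |G x| < π / 2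
  pos : ∀ x, 0 < x → x < 1 → 0 < G x
  neg : ∀ x, -1 < x → x < 0 → G x < 0
  zero : G 0 = 0
  eq : ∀ x, |x| < 1 → A (G x) = r * sqrt (1 - x ^ 2)
  d0 : HasDerivAt G 1 0
  d : ∀ x, |x| < 1 → x ≠ 0 →
    HasDerivAt G (r ^ 2 * x / (A (G x) * (R (G x) * sin (G x)))) x
  surjN : ∀ φ, 0 ≤ φ → φ < π / 2 → G (sqrt (1 - (A φ / r) ^ 2)) = φ
  surjS : ∀ φ, 0 ≤ φ → φ < π / 2 → G (-sqrt (1 - (A (-φ) / r) ^ 2)) = -φ

/-- `H x = x / sin (G x)`, with the value `1` at `x = 0`: the speed `ds/dβ` of the meridian in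
the pseudo-latitude `β = arcsin x`, divided by `r`. -/
noncomputable def Hf (G : ℝ → ℝ) (x : ℝ) : ℝ := if x = 0 then 1 else x / sin (G x)

/-- The rotation of a geodesic with Clairaut constant `r √(1 - a²)` during one oscillation. -/
noncomputable def Rot (H : ℝ → ℝ) (a : ℝ) : ℝ :=
  sqrt (1 - a ^ 2) * ∫ χ in (0 : ℝ)..(2 * π), H (a * sin χ) / (1 - (a * sin χ) ^ 2)

end Pool.Agent.Rev
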