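import Pool.Agent.Rev.Defs

set_option autoImplicit false
open scoped ContDiff
open Real Set

namespace Pool.Agent.Rev

variable {r : ℝ} {A R G : ℝ → ℝ}

/-- One step of the convexity argument. -/
lemma mean_step {s s' c c' m : ℝ} (hs : 0 < s) (hs' : 0 < s') 
    (h1 : s ^ 2 + c ^ 2 = 1) (h2 : s' ^ 2 + c' ^ 2 = 1) (hm : 0 < m)
    (h : 1 / s' + 1 / s = 2 / m) : (c + c') / 2 ≤ sqrt (1 - m ^ 2) := by
  have hm' : m * (s + s') = 2 * s * s' := by
    field_simp at h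
    nlinarith [h]
  have hcs : c * c' + s * s' ≤ 1 := by
    nlinarith [sq_nonneg (c - c'), sq_nonneg (s - s')]
  have hm2 : m ≤ (s + s') / 2 := by
    have h3 : m * (s + s') ≤ (s + s') / 2 * (s + s') := by
      nlinarith [sq_nonneg (s - s')]
    exact le_of_mul_le_mul_right h3 (by positivity)
  apply Real.le_sqrt_of_sq_le
  nlinarith [mul_self_le_mul_self hm.le hm2]

/-- The iteration. -/
lemma iterate_bound {P Q : ℝ → ℝ} (hr : 0 < r) (hPc : ContinuousOn P (Icc 0 (π / 2)))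
    (hP0 : P 0 = r) (hPe : P (π / 2) = 0)
    (hQpos : ∀ φ, 0 < φ → φ < π / 2 → 0 < Q φ)
    (hsum : ∀ φ, P φ + Q φ = 2 * r * cos φ)
    (hz : ∀ φ ψ, 0 < φ → φ < π / 2 → 0 < ψ → ψ < π / 2 → P φ = Q ψ →
      1 / sin φ + 1 / sin ψ = 2 / sqrt (1 - (P φ / r) ^ 2)) (n : ℕ) :
    ∀ φ, 0 < φ → φ < π / 2 → 0 < P φ - r * cos φ → n * (P φ - r * cos φ) ≤ r * cos φ := by
  induction n with
  | zero =>
    intro φ h0 h1 _
    have : 0 < cos φ := cos_pos_of_mem_Ioo ⟨by linarith, h1⟩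
    simp only [Nat.cast_zero, zero_mul]
    positivity
  | succ n ih =>
    intro φ h0 h1 he
    set e := P φ - r * cos φ with hedef
    have hcφ : 0 < cos φ := cos_pos_of_mem_Ioo ⟨by linarith, h1⟩
    have hsφ : 0 < sin φ := sin_pos_of_pos_of_lt_pi h0 (by linarith)
    have hc1 : cos φ ≤ 1 := cos_le_one φ
    set ρ := Q φ with hρ
    have hρpos : 0 < ρ := hQpos φ h0 h1
    have hρe : ρ = r * cos φ - e := by
      have := hsum φ
      linarith
    have hρr : ρ < r := by nlinarith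
    -- intermediate value theorem
    have hpi : (0 : ℝ) ≤ π / 2 := by positivity
    have hivt : Icc (P (π / 2)) (P 0) ⊆ P '' Icc 0 (π / 2) := intermediate_value_Icc' hpi hPc
    have hmem : ρ ∈ Icc (P (π / 2)) (P 0) :=
      ⟨by rw [hPe]; exact hρpos.le, by rw [hP0]; exact hρr.le⟩
    obtain ⟨φ', hφ', hPφ'⟩ := hivt hmem
    have hφ'0 : 0 < φ' := by
      rcases lt_or_eq_of_le hφ'.1 with h | h
      · exact h
      · exfalso; rw [← h, hP0] at hPφ'; linarith
    have hφ'1 : φ' < π / 2 := by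
      rcases lt_or_eq_of_le hφ'.2 with h | h
      · exact h
      · exfalso; rw [h, hPe] at hPφ'; linarith
    have hcφ' : 0 < cos φ' := cos_pos_of_mem_Ioo ⟨by linarith, hφ'1⟩
    have hsφ' : 0 < sin φ' := sin_pos_of_pos_of_lt_pi hφ'0 (by linarith)
    have hrel := hz φ' φ hφ'0 hφ'1 h0 h1 hPφ'
    rw [hPφ'] at hrel
    have hq : (ρ / r) ^ 2 < 1 := by
      rw [div_pow, div_lt_one (by positivity)]
      nlinarith
    set m := sqrt (1 - (ρ / r) ^ 2) with hm
    have hmpos : 0 < m := Real.sqrt_pos.mpr (by linarith)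
    have hm2 : m ^ 2 = 1 - (ρ / r) ^ 2 := Real.sq_sqrt (by linarith)
    have hρr0 : 0 ≤ ρ / r := by positivity
    have hstep := mean_step hsφ hsφ' (sin_sq_add_cos_sq φ)
      (sin_sq_add_cos_sq φ') hmpos hrel
    rw [hm2] at hstep
    have h5 : sqrt (1 - (1 - (ρ / r) ^ 2)) = ρ / r := by
      rw [show 1 - (1 - (ρ / r) ^ 2) = (ρ / r) ^ 2 by ring, Real.sqrt_sq hρr0]
    rw [h5] at hstep
    -- r (cos φ + cos φ') / 2 ≤ ρ
    have h6 : r * (cos φ + cos φ') / 2 ≤ ρ := by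
      rw [le_div_iff₀ hr] at hstep
      linarith
    have h7 : e ≤ ρ - r * cos φ' := by linarith
    have h8 : P φ' - r * cos φ' = ρ - r * cos φ' := by rw [hPφ']
    have h9 := ih φ' hφ'0 hφ'1 (by rw [h8]; linarith)
    rw [h8] at h9
    have h10 : (n : ℝ) * e ≤ n * (ρ - r * cos φ') := mul_le_mul_of_nonneg_left h7 (Nat.cast_nonneg n)
    push_cast
    nlinarith

lemma le_circle {P Q : ℝ → ℝ} (hr : 0 < r) (hPc : ContinuousOn P (Icc 0 (π / 2)))
    (hP0 : P 0 = r) (hPe : P (π / 2) = 0)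
    (hQpos : ∀ φ, 0 < φ → φ < π / 2 → 0 < Q φ)
    (hsum : ∀ φ, P φ + Q φ = 2 * r * cos φ)
    (hz : ∀ φ ψ, 0 < φ → φ < π / 2 → 0 < ψ → ψ < π / 2 → P φ = Q ψ →
      1 / sin φ + 1 / sin ψ = 2 / sqrt (1 - (P φ / r) ^ 2)) :
    ∀ φ, 0 < φ → φ < π / 2 → P φ ≤ r * cos φ := by
  intro φ h0 h1
  by_contra hcon
  rw [not_le] at hcon
  have he : 0 < P φ - r * cos φ := by linarith
  obtain ⟨n, hn⟩ := exists_nat_gt (r * cos φ / (P φ - r * cos φ))
  have h2 := iterate_bound hr hPc hP0 hPe hQpos hsum hz n φ h0 h1 he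
  rw [div_lt_iff₀ he] at hn
  linarith

/-- The convexity argument: constant width and the Zoll relation force a circle. -/
theorem profile_circle (h : Prof r A R)
    (hz : ∀ φ ψ, 0 < φ → φ < π / 2 → 0 < ψ → ψ < π / 2 → A φ = A (-ψ) →
      1 / sin φ + 1 / sin ψ = 2 / sqrt (1 - (A φ / r) ^ 2)) :
    ∀ φ, |φ| ≤ π / 2 → A φ = r * cos φ := by
  have hAc : Continuous A := h.smA.continuous
  have hN := le_circle (P := A) (Q := fun φ => A (-φ)) h.rpos hAc.continuousOn h.A0 h.AN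
    (fun φ h0 h1 => h.Apos _ (by rw [abs_neg, abs_of_pos h0]; exact h1)) h.Asum hz
  have hS := le_circle (P := fun φ => A (-φ)) (Q := A) h.rpos
    (hAc.comp continuous_neg).continuousOn (by simpa using h.A0) h.AS
    (fun φ h0 h1 => h.Apos _ (by rw [abs_of_pos h0]; exact h1))
    (fun φ => by rw [add_comm]; exact h.Asum φ)
    (fun φ ψ h0 h1 h2 h3 heq => by
      have := hz ψ φ h2 h3 h0 h1 heq.symm
      rw [add_comm, this, ← heq])
  have hmain : ∀ φ, 0 < φ → φ < π / 2 → A φ = r * cos φ ∧ A (-φ) = r * cos φ := by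
    intro φ h0 h1
    have a1 := hN φ h0 h1
    have a2 := hS φ h0 h1
    have a3 := h.Asum φ
    have a2' : A (-φ) ≤ r * cos φ := a2
    constructor <;> linarith
  intro φ hφ
  rcases lt_trichotomy φ 0 with hneg | hz0 | hpos
  · rw [abs_of_neg hneg] at hφ
    rcases lt_or_eq_of_le hφ with hlt | heq
    · have := (hmain (-φ) (by linarith) hlt).2
      rw [neg_neg, cos_neg] at this
      exact this
    · have : φ = -(π / 2) := by linarith
      rw [this, h.AS, cos_neg, cos_pi_div_two, mul_zero]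
  · rw [hz0, h.A0, cos_zero, mul_one]
  · rw [abs_of_pos hpos] at hφ
    rcases lt_or_eq_of_le hφ with hlt | heq
    · exact (hmain φ hpos hlt).1
    · rw [heq, h.AN, cos_pi_div_two, mul_zero]

/-- The Zoll relation from `H x + H (-x) = 2`. -/
theorem zoll_of_H (h : Prof r A R) (hG : GF r A R G)
    (hH : ∀ x ∈ Ico (0 : ℝ) 1, Hf G x + Hf G (-x) = 2) :
    ∀ φ ψ, 0 < φ → φ < π / 2 → 0 < ψ → ψ < π / 2 → A φ = A (-ψ) →
      1 / sin φ + 1 / sin ψ = 2 / sqrt (1 - (A φ / r) ^ 2) := by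
  intro φ ψ h0 h1 h2 h3 heq
  set x := sqrt (1 - (A φ / r) ^ 2) with hx
  have hGx : G x = φ := hG.surjN φ h0.le h1
  have hGmx : G (-x) = -ψ := by
    have := hG.surjS ψ h2.le h3
    rw [← heq] at this
    exact this
  have hx0 : 0 ≤ x := Real.sqrt_nonneg _
  have hxne : x ≠ 0 := by
    intro hx'
    rw [hx', hG.zero] at hGx
    linarith
  have hxpos : 0 < x := lt_of_le_of_ne hx0 (Ne.symm hxne)
  have hApos : 0 < A φ := h.Apos φ (by rw [abs_of_pos h0]; exact h1)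
  have hx1 : x < 1 := by
    rw [hx, Real.sqrt_lt' one_pos]
    have : 0 < (A φ / r) ^ 2 := by
      have := h.rpos
      positivity
    linarith
  have h4 := hH x ⟨hx0, hx1⟩
  have hsφ : 0 < sin φ := sin_pos_of_pos_of_lt_pi h0 (by linarith [pi_pos])
  have hsψ : 0 < sin ψ := sin_pos_of_pos_of_lt_pi h2 (by linarith [pi_pos])
  rw [Hf, Hf, if_neg hxne, if_neg (neg_ne_zero.mpr hxne), hGx, hGmx, sin_neg, neg_div_neg_eq] at h4
  rw [eq_div_iff hxne, ← h4]
  field_simp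

end Pool.Agent.Rev
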