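import Pool.Agent.Rev.Defs

set_option autoImplicit false
open scoped ContDiff
open Real Set

namespace Pool.Agent.Rev

variable {r : ℝ} {A R G : ℝ → ℝ}

/-- The function whose inverse is `G`. -/
noncomputable def xi (r : ℝ) (A : ℝ → ℝ) (φ : ℝ) : ℝ :=
  if 0 ≤ φ then sqrt (1 - (A φ / r) ^ 2) else -sqrt (1 - (A φ / r) ^ 2)

lemma Prof.contA (h : Prof r A R) : Continuous A := h.smA.continuous

lemma Prof.anti (h : Prof r A R) : StrictAntiOn A (Icc 0 (π / 2)) := by
  refine strictAntiOn_of_deriv_neg (convex_Icc _ _) h.contA.continuousOn fun x hx => ?_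
  rw [interior_Icc] at hx
  rw [(h.dA x).deriv, neg_lt_zero]
  exact mul_pos (h.Rpos x) (sin_pos_of_pos_of_lt_pi hx.1 (by linarith [hx.2, pi_pos]))

lemma Prof.mono (h : Prof r A R) : StrictMonoOn A (Icc (-(π / 2)) 0) := by
  refine strictMonoOn_of_deriv_pos (convex_Icc _ _) h.contA.continuousOn fun x hx => ?_
  rw [interior_Icc] at hx
  rw [(h.dA x).deriv, neg_pos]
  exact mul_neg_of_pos_of_neg (h.Rpos x)
    (sin_neg_of_neg_of_neg_pi_lt hx.2 (by linarith [hx.1, pi_pos]))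

lemma Prof.lt_of_pos (h : Prof r A R) {φ : ℝ} (h0 : 0 < φ) (h1 : φ < π / 2) : A φ < r := by
  have h2 := h.anti (a := 0) (b := φ) ⟨le_refl _, by linarith [pi_pos]⟩ ⟨h0.le, h1.le⟩ h0
  rwa [h.A0] at h2

lemma Prof.lt_of_neg (h : Prof r A R) {φ : ℝ} (h0 : φ < 0) (h1 : -(π / 2) < φ) : A φ < r := by
  have h2 := h.mono (a := φ) (b := 0) ⟨h1.le, h0.le⟩ ⟨by linarith [pi_pos], le_refl _⟩ h0
  rwa [h.A0] at h2

/-- `0 < A φ / r < 1` for `φ ≠ 0` -/
lemma Prof.ratio (h : Prof r A R) {φ : ℝ} (h0 : φ ≠ 0) (h1 : |φ| < π / 2) :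
    0 < A φ / r ∧ A φ / r < 1 := by
  refine ⟨div_pos (h.Apos φ h1) h.rpos, ?_⟩
  rw [div_lt_one h.rpos]
  rcases lt_or_gt_of_ne h0 with h2 | h2
  · exact h.lt_of_neg h2 (by have := (abs_lt.1 h1).1; linarith)
  · exact h.lt_of_pos h2 (abs_lt.1 h1).2

lemma xi_zero (h : Prof r A R) : xi r A 0 = 0 := by
  have := h.rpos.ne'
  simp [xi, h.A0, this]

lemma xi_pos (h : Prof r A R) {φ : ℝ} (h0 : 0 < φ) (h1 : φ < π / 2) : 0 < xi r A φ := by
  have h2 := h.ratio h0.ne' (by rwa [abs_of_pos h0])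
  rw [xi, if_pos h0.le]
  exact sqrt_pos.2 (by nlinarith [h2.1, h2.2])

lemma xi_neg (h : Prof r A R) {φ : ℝ} (h0 : φ < 0) (h1 : -(π / 2) < φ) : xi r A φ < 0 := by
  have h2 := h.ratio h0.ne (by rw [abs_of_neg h0]; linarith)
  rw [xi, if_neg (not_le.2 h0), neg_lt_zero]
  exact sqrt_pos.2 (by nlinarith [h2.1, h2.2])

lemma xi_sq (h : Prof r A R) {φ : ℝ} (h1 : |φ| < π / 2) : xi r A φ ^ 2 = 1 - (A φ / r) ^ 2 := by
  have h0 : 0 ≤ 1 - (A φ / r) ^ 2 := by
    by_cases h2 : φ = 0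
    · subst h2
      rw [h.A0, div_self h.rpos.ne']
      norm_num
    · have h3 := h.ratio h2 h1
      nlinarith [h3.1, h3.2]
  rw [xi]
  split_ifs
  · exact sq_sqrt h0
  · rw [neg_sq]
    exact sq_sqrt h0

lemma xi_abs (h : Prof r A R) {φ : ℝ} (h1 : |φ| < π / 2) : |xi r A φ| < 1 := by
  have h2 := xi_sq h h1
  have h3 : 0 < A φ / r := div_pos (h.Apos φ h1) h.rpos
  rw [← sq_lt_one_iff_abs_lt_one, h2]
  nlinarith

lemma A_of_xi (h : Prof r A R) {φ : ℝ} (h1 : |φ| < π / 2) : A φ = r * sqrt (1 - xi r A φ ^ 2) := by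
  rw [xi_sq h h1, sub_sub_cancel, sqrt_sq (div_pos (h.Apos φ h1) h.rpos).le,
    mul_div_cancel₀ _ h.rpos.ne']

lemma xi_strictMono (h : Prof r A R) : StrictMonoOn (xi r A) (Ioo (-(π / 2)) (π / 2)) := by
  intro a ha b hb hab
  rcases le_or_gt 0 a with h0 | h0
  · have h1 : 0 < b := h0.trans_lt hab
    have h2 := h.anti ⟨h0, ha.2.le⟩ ⟨h1.le, hb.2.le⟩ hab
    have h3 : 0 < A b / r := div_pos (h.Apos b (by rw [abs_of_pos h1]; exact hb.2)) h.rpos
    have h4 : A b / r < A a / r := div_lt_div_of_pos_right h2 h.rpos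
    have h5 : A a / r ≤ 1 := by
      rcases h0.eq_or_lt with h6 | h6
      · rw [← h6, h.A0, div_self h.rpos.ne']
      · exact (h.ratio h6.ne' (by rw [abs_of_pos h6]; exact ha.2)).2.le
    rw [xi, xi, if_pos h0, if_pos h1.le]
    exact sqrt_lt_sqrt (by nlinarith) (by nlinarith)
  · rcases le_or_gt 0 b with h1 | h1
    · refine (xi_neg h h0 ha.1).trans_le ?_
      rw [xi, if_pos h1]
      exact sqrt_nonneg _
    · have h2 := h.mono ⟨ha.1.le, h0.le⟩ ⟨hb.1.le, h1.le⟩ hab
      have h3 : 0 < A a / r := div_pos (h.Apos a (by rw [abs_of_neg h0]; linarith [ha.1])) h.rpos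
      have h4 : A a / r < A b / r := div_lt_div_of_pos_right h2 h.rpos
      have h5 : A b / r ≤ 1 := (h.ratio h1.ne (by rw [abs_of_neg h1]; linarith [hb.1])).2.le
      rw [xi, xi, if_neg (not_le.2 h0), if_neg (not_le.2 h1), neg_lt_neg_iff]
      exact sqrt_lt_sqrt (by nlinarith) (by nlinarith)

lemma xi_surj (h : Prof r A R) {x : ℝ} (hx : |x| < 1) : ∃ φ : ℝ, |φ| < π / 2 ∧ xi r A φ = x := by
  have hx2 : x ^ 2 < 1 := (sq_lt_one_iff_abs_lt_one x).2 hx
  have hs0 : 0 < sqrt (1 - x ^ 2) := sqrt_pos.2 (by linarith)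
  have hs1 : sqrt (1 - x ^ 2) ≤ 1 := sqrt_le_one.2 (by nlinarith [sq_nonneg x])
  have hp : 0 < π / 2 := by linarith [pi_pos]
  have hr := h.rpos
  have key : ∀ φ, A φ = r * sqrt (1 - x ^ 2) → sqrt (1 - (A φ / r) ^ 2) = |x| := by
    intro φ hφ
    rw [hφ, mul_div_cancel_left₀ _ hr.ne', sq_sqrt (by linarith), sub_sub_cancel, sqrt_sq_eq_abs]
  rcases le_or_gt 0 x with h0 | h0
  · have h1 : r * sqrt (1 - x ^ 2) ∈ Icc (A (π / 2)) (A 0) := by
      rw [h.AN, h.A0]
      exact ⟨by positivity, by nlinarith⟩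
    obtain ⟨φ, hφ, hA⟩ := intermediate_value_Icc' hp.le h.contA.continuousOn h1
    have h2 : φ ≠ π / 2 := by
      rintro rfl
      rw [h.AN] at hA
      nlinarith [mul_pos hr hs0]
    refine ⟨φ, ?_, ?_⟩
    · rw [abs_of_nonneg hφ.1]
      exact lt_of_le_of_ne hφ.2 h2
    · rw [xi, if_pos hφ.1, key φ hA, abs_of_nonneg h0]
  · have h1 : r * sqrt (1 - x ^ 2) ∈ Icc (A (-(π / 2))) (A 0) := by
      rw [h.AS, h.A0]
      exact ⟨by positivity, by nlinarith⟩
    obtain ⟨φ, hφ, hA⟩ := intermediate_value_Icc (by linarith : -(π / 2) ≤ 0) h.contA.continuousOn h1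
    have h2 : φ ≠ -(π / 2) := by
      rintro rfl
      rw [h.AS] at hA
      nlinarith [mul_pos hr hs0]
    have h3 : φ ≠ 0 := by
      rintro rfl
      rw [h.A0] at hA
      have h4 : sqrt (1 - x ^ 2) = 1 := by
        have := mul_left_cancel₀ hr.ne' (a := r) (b := sqrt (1 - x ^ 2)) (c := 1) (by linarith)
        exact this
      rw [sqrt_eq_one] at h4
      nlinarith
    have h4 : φ < 0 := lt_of_le_of_ne hφ.2 h3
    refine ⟨φ, ?_, ?_⟩
    · rw [abs_of_neg h4]
      have := lt_of_le_of_ne hφ.1 (Ne.symm h2)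
      linarith
    · rw [xi, if_neg (not_le.2 h4), key φ hA, abs_of_neg h0, neg_neg]

/-- the derivative of `xi` outside `0` -/
lemma xi_deriv (h : Prof r A R) {φ : ℝ} (h0 : φ ≠ 0) (h1 : |φ| < π / 2) :
    HasDerivAt (xi r A) (A φ * (R φ * sin φ) / (r ^ 2 * xi r A φ)) φ := by
  have h2 := h.ratio h0 h1
  have h3 : 0 < 1 - (A φ / r) ^ 2 := by nlinarith [h2.1, h2.2]
  have h4 : HasDerivAt (fun x => 1 - (A x / r) ^ 2) (2 * A φ * (R φ * sin φ) / r ^ 2) φ := by
    have := (((h.dA φ).div_const r).pow 2).const_sub 1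
    refine this.congr_deriv ?_
    have := h.rpos.ne'
    simp only [Nat.cast_ofNat, Nat.add_one_sub_one, pow_one]
    field_simp
  have h5 := h4.sqrt h3.ne'
  have h6 : 0 < sqrt (1 - (A φ / r) ^ 2) := sqrt_pos.2 h3
  have h7 := h.rpos.ne'
  rcases lt_or_gt_of_ne h0 with h8 | h8
  · have h9 : xi r A =ᶠ[nhds φ] fun x => -sqrt (1 - (A x / r) ^ 2) := by
      filter_upwards [Iio_mem_nhds h8] with y hy
      rw [xi, if_neg (not_le.2 hy)]
    refine (h5.neg.congr_of_eventuallyEq h9).congr_deriv ?_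
    rw [xi, if_neg (not_le.2 h8)]
    field_simp
  · have h9 : xi r A =ᶠ[nhds φ] fun x => sqrt (1 - (A x / r) ^ 2) := by
      filter_upwards [Ioi_mem_nhds h8] with y hy
      rw [xi, if_pos (le_of_lt hy)]
    refine (h5.congr_of_eventuallyEq h9).congr_deriv ?_
    rw [xi, if_pos h8.le]
    field_simp

open Filter Topology in
/-- the derivative of `xi` at `0` -/
lemma xi_deriv_zero (h : Prof r A R) : HasDerivAt (xi r A) 1 0 := by
  have hr := h.rpos.ne'
  have hp : 0 < π / 2 := by linarith [pi_pos]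
  have hev : ∀ᶠ x : ℝ in 𝓝[≠] 0, |x| < π / 2 := by
    refine eventually_nhdsWithin_of_eventually_nhds ?_
    have : Ioo (-(π / 2)) (π / 2) ∈ 𝓝 (0 : ℝ) := Ioo_mem_nhds (by linarith) hp
    filter_upwards [this] with x hx using abs_lt.2 hx
  have h1 : Tendsto (fun x => (1 - (A x / r) ^ 2) / x ^ 2) (𝓝[≠] 0) (𝓝 1) := by
    refine HasDerivAt.lhopital_zero_nhdsNE (f' := fun x => 2 * A x * (R x * sin x) / r ^ 2)
      (g' := fun x => 2 * x) ?_ ?_ ?_ ?_ ?_ ?_
    · refine Eventually.of_forall fun x => ?_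
      have := (((h.dA x).div_const r).pow 2).const_sub 1
      refine this.congr_deriv ?_
      simp only [Nat.cast_ofNat, Nat.add_one_sub_one, pow_one]
      field_simp
    · refine Eventually.of_forall fun x => ?_
      simpa using hasDerivAt_pow 2 x
    · filter_upwards [self_mem_nhdsWithin] with x hx
      exact mul_ne_zero two_ne_zero hx
    · have h2 : Continuous fun x => 1 - (A x / r) ^ 2 := by
        have := h.contA
        fun_prop
      have h3 := h2.tendsto 0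
      rw [h.A0, div_self hr, one_pow, sub_self] at h3
      exact h3.mono_left nhdsWithin_le_nhds
    · have h2 : Continuous fun x : ℝ => x ^ 2 := by fun_prop
      have h3 := h2.tendsto 0
      simp only [ne_eq, OfNat.ofNat_ne_zero, not_false_eq_true, zero_pow] at h3
      exact h3.mono_left nhdsWithin_le_nhds
    · have h2 : Tendsto (fun x => A x * R x / r ^ 2 * (sin x / x)) (𝓝[≠] 0) (𝓝 1) := by
        have h3 : Tendsto (fun x : ℝ => sin x / x) (𝓝[≠] 0) (𝓝 1) := by
          have := (hasDerivAt_sin 0).tendsto_slope_zero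
          simp only [zero_add, sin_zero, sub_zero, cos_zero, smul_eq_mul] at this
          refine this.congr fun x => ?_
          rw [inv_mul_eq_div]
        have h4 : Tendsto (fun x => A x * R x / r ^ 2) (𝓝[≠] 0) (𝓝 1) := by
          have h5 : Continuous fun x => A x * R x / r ^ 2 := by
            have := h.contA
            have := h.smR.continuous
            fun_prop
          have h6 := h5.tendsto 0
          rw [h.A0, h.R0] at h6
          have h7 : r * r / r ^ 2 = 1 := by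
            field_simp
          rw [h7] at h6
          exact h6.mono_left nhdsWithin_le_nhds
        simpa using h4.mul h3
      refine h2.congr' ?_
      filter_upwards [self_mem_nhdsWithin] with x hx
      have hx' : x ≠ 0 := hx
      field_simp
  rw [hasDerivAt_iff_tendsto_slope]
  have h2 : Tendsto (fun x => sqrt ((1 - (A x / r) ^ 2) / x ^ 2)) (𝓝[≠] 0) (𝓝 1) := by
    have := (continuous_sqrt.tendsto 1).comp h1
    rw [sqrt_one] at this
    exact this
  refine h2.congr' ?_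
  filter_upwards [self_mem_nhdsWithin, hev] with x hx hx1
  have hx' : x ≠ 0 := hx
  rw [slope_def_field, xi_zero h, sub_zero, sub_zero, ← xi_sq h hx1, ← div_pow, sqrt_sq_eq_abs,
    abs_eq_self]
  rcases lt_or_gt_of_ne hx' with h3 | h3
  · exact div_nonneg_of_nonpos (xi_neg h h3 (by have := (abs_lt.1 hx1).1; linarith)).le h3.le
  · exact div_nonneg (xi_pos h h3 (abs_lt.1 hx1).2).le h3.le

theorem exists_G (h : Prof r A R) : ∃ G : ℝ → ℝ, GF r A R G := by
  classical
  have hex : ∀ x : ℝ, ∃ φ : ℝ, |x| < 1 → |φ| < π / 2 ∧ xi r A φ = x := by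
    intro x
    by_cases hx : |x| < 1
    · obtain ⟨φ, hφ⟩ := xi_surj h hx
      exact ⟨φ, fun _ => hφ⟩
    · exact ⟨0, fun h => absurd h hx⟩
  choose G hG using hex
  have hp : 0 < π / 2 := by linarith [pi_pos]
  have hmem : ∀ x, |x| < 1 → G x ∈ Ioo (-(π / 2)) (π / 2) := fun x hx => abs_lt.1 (hG x hx).1
  have hinv : ∀ φ, |φ| < π / 2 → G (xi r A φ) = φ := by
    intro φ hφ
    have h1 := hG (xi r A φ) (xi_abs h hφ)
    exact (xi_strictMono h).injOn (abs_lt.1 h1.1) (abs_lt.1 hφ) h1.2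
  have hmono : StrictMonoOn G (Ioo (-1) 1) := by
    intro a ha b hb hab
    have ha' := hG a (abs_lt.2 ha)
    have hb' := hG b (abs_lt.2 hb)
    by_contra hcon
    rw [not_lt] at hcon
    have := (xi_strictMono h).monotoneOn (abs_lt.1 hb'.1) (abs_lt.1 ha'.1) hcon
    rw [ha'.2, hb'.2] at this
    linarith
  have himg : G '' Ioo (-1) 1 = Ioo (-(π / 2)) (π / 2) := by
    ext φ
    constructor
    · rintro ⟨x, hx, rfl⟩
      exact hmem x (abs_lt.2 hx)
    · intro hφ
      exact ⟨xi r A φ, abs_lt.1 (xi_abs h (abs_lt.2 hφ)), hinv φ (abs_lt.2 hφ)⟩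
  have hcont : ∀ x, |x| < 1 → ContinuousAt G x := by
    intro x hx
    refine hmono.continuousAt_of_image_mem_nhds (isOpen_Ioo.mem_nhds (abs_lt.1 hx)) ?_
    rw [himg]
    exact isOpen_Ioo.mem_nhds (hmem x hx)
  have hev : ∀ x, |x| < 1 → ∀ᶠ y in nhds x, xi r A (G y) = y := by
    intro x hx
    filter_upwards [isOpen_Ioo.mem_nhds (abs_lt.1 hx)] with y hy using (hG y (abs_lt.2 hy)).2
  have hzero : G 0 = 0 := by
    have := hinv 0 (by rw [abs_zero]; exact hp)
    rwa [xi_zero h] at this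
  refine ⟨G, ?_, ?_, ?_, hzero, ?_, ?_, ?_, ?_, ?_⟩
  · exact fun x hx => (hG x hx).1
  · intro x h0 h1
    rw [← hzero]
    exact hmono ⟨by norm_num, by norm_num⟩ ⟨by linarith, h1⟩ h0
  · intro x h0 h1
    rw [← hzero]
    exact hmono ⟨h0, by linarith⟩ ⟨by norm_num, by norm_num⟩ h1
  · intro x hx
    rw [A_of_xi h (hG x hx).1, (hG x hx).2]
  · have h1 : HasDerivAt (xi r A) 1 (G 0) := by
      rw [hzero]
      exact xi_deriv_zero h
    have h2 := HasDerivAt.of_local_left_inverse (hcont 0 (by simp)) h1 one_ne_zero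
      (hev 0 (by simp))
    rwa [inv_one] at h2
  · intro x hx hx0
    have h1 : G x ≠ 0 := by
      intro h2
      have h3 := (hG x hx).2
      rw [h2, xi_zero h] at h3
      exact hx0 h3.symm
    have h2 := xi_deriv h h1 (hG x hx).1
    rw [(hG x hx).2] at h2
    have h3 : sin (G x) ≠ 0 := by
      intro h4
      have h5 := hmem x hx
      rcases lt_or_gt_of_ne h1 with h6 | h6
      · exact (sin_neg_of_neg_of_neg_pi_lt h6 (by linarith [h5.1])).ne h4
      · exact (sin_pos_of_pos_of_lt_pi h6 (by linarith [h5.2])).ne' h4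
    have h4 := (h.Apos (G x) (hG x hx).1).ne'
    have h5 := (h.Rpos (G x)).ne'
    have h6 := h.rpos.ne'
    have h7 := HasDerivAt.of_local_left_inverse (hcont x hx) h2
      (div_ne_zero (mul_ne_zero h4 (mul_ne_zero h5 h3)) (mul_ne_zero (pow_ne_zero 2 h6) hx0))
      (hev x hx)
    rwa [inv_div] at h7
  · intro φ h0 h1
    have h2 := hinv φ (by rwa [abs_of_nonneg h0])
    rwa [xi, if_pos h0] at h2
  · intro φ h0 h1
    rcases h0.eq_or_lt with h3 | h3
    · rw [← h3, neg_zero, h.A0, div_self h.rpos.ne', one_pow, sub_self, sqrt_zero, neg_zero, hzero]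
    · have h2 := hinv (-φ) (by rwa [abs_neg, abs_of_nonneg h0])
      rwa [xi, if_neg (by linarith)] at h2

theorem Hf_zero : Hf G 0 = 1 := by
  simp [Hf]

lemma sin_G_pos (hG : GF r A R G) {x : ℝ} (h0 : 0 < x) (h1 : x < 1) : 0 < sin (G x) :=
  sin_pos_of_pos_of_lt_pi (hG.pos x h0 h1) (by
    have := (abs_lt.1 (hG.mem x (by rwa [abs_of_pos h0]))).2
    linarith [pi_pos])

lemma sin_G_neg (hG : GF r A R G) {x : ℝ} (h0 : x < 0) (h1 : -1 < x) : sin (G x) < 0 :=
  sin_neg_of_neg_of_neg_pi_lt (hG.neg x h1 h0) (by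
    have := (abs_lt.1 (hG.mem x (by rw [abs_of_neg h0]; linarith))).1
    linarith [pi_pos])

lemma sin_G_ne (hG : GF r A R G) {x : ℝ} (h0 : x ≠ 0) (hx : |x| < 1) : sin (G x) ≠ 0 := by
  rcases lt_or_gt_of_ne h0 with h1 | h1
  · exact (sin_G_neg hG h1 (abs_lt.1 hx).1).ne
  · exact (sin_G_pos hG h1 (abs_lt.1 hx).2).ne'

theorem Hf_pos (hG : GF r A R G) {x : ℝ} (hx : |x| < 1) : 0 < Hf G x := by
  rw [Hf]
  split_ifs with h0
  · exact one_pos
  · rcases lt_or_gt_of_ne h0 with h1 | h1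
    · exact div_pos_of_neg_of_neg h1 (sin_G_neg hG h1 (abs_lt.1 hx).1)
    · exact div_pos h1 (sin_G_pos hG h1 (abs_lt.1 hx).2)

lemma G_continuousAt (hG : GF r A R G) {x : ℝ} (hx : |x| < 1) : ContinuousAt G x := by
  by_cases h0 : x = 0
  · subst h0
    exact hG.d0.continuousAt
  · exact (hG.d x hx h0).continuousAt

open Filter Topology in
theorem Hf_cont (hG : GF r A R G) : ContinuousOn (Hf G) (Ioo (-1) 1) := by
  intro x hx
  refine ContinuousAt.continuousWithinAt ?_
  have hx1 : |x| < 1 := abs_lt.2 hx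
  by_cases h0 : x = 0
  · subst h0
    have h1 : HasDerivAt (fun y => sin (G y)) 1 0 := by
      have h2 : HasDerivAt sin (cos 0) (G 0) := by
        rw [hG.zero]
        exact hasDerivAt_sin 0
      have h3 := h2.comp 0 hG.d0
      rw [cos_zero, one_mul] at h3
      exact h3
    have h2 : Tendsto (fun y => sin (G y) / y) (𝓝[≠] 0) (𝓝 1) := by
      have h3 := h1.tendsto_slope_zero
      simp only [zero_add, hG.zero, sin_zero, sub_zero, smul_eq_mul] at h3
      refine h3.congr fun y => ?_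
      rw [inv_mul_eq_div]
    have h3 : Tendsto (fun y => y / sin (G y)) (𝓝[≠] 0) (𝓝 1) := by
      have h4 := h2.inv₀ one_ne_zero
      rw [inv_one] at h4
      refine h4.congr fun y => ?_
      rw [inv_div]
    rw [continuousAt_iff_punctured_nhds, Hf_zero]
    refine h3.congr' ?_
    filter_upwards [self_mem_nhdsWithin] with y hy
    have hy' : y ≠ 0 := hy
    rw [Hf, if_neg hy']
  · have h1 : Hf G =ᶠ[𝓝 x] fun y => y / sin (G y) := by
      filter_upwards [isOpen_ne.mem_nhds h0] with y hy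
      rw [Hf, if_neg hy]
    refine ContinuousAt.congr_of_eventuallyEq ?_ h1
    exact continuousAt_id.div (continuous_sin.continuousAt.comp (G_continuousAt hG hx1))
      (sin_G_ne hG h0 hx1)

/-- `H x * sin (G x) = x`. -/
theorem Hf_mul (hG : GF r A R G) {x : ℝ} (hx : |x| < 1) : Hf G x * sin (G x) = x := by
  rw [Hf]
  split_ifs with h0
  · rw [h0, hG.zero, sin_zero, mul_zero]
  · exact div_mul_cancel₀ _ (sin_G_ne hG h0 hx)

/-- A derivative formula for `G` valid also at `0`. -/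
theorem G_deriv (h : Prof r A R) (hG : GF r A R G) {x : ℝ} (hx : |x| < 1) :
    HasDerivAt G (r ^ 2 * Hf G x / (A (G x) * R (G x))) x := by
  by_cases h0 : x = 0
  · subst h0
    rw [Hf_zero, hG.zero, h.A0, h.R0]
    have h1 := h.rpos.ne'
    have h2 : r ^ 2 * 1 / (r * r) = 1 := by
      field_simp
    rw [h2]
    exact hG.d0
  · refine (hG.d x hx h0).congr_deriv ?_
    have h1 := sin_G_ne hG h0 hx
    have h2 := (h.Apos (G x) (hG.mem x hx)).ne'
    have h3 := (h.Rpos (G x)).ne'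
    rw [Hf, if_neg h0]
    field_simp

end Pool.Agent.Rev
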