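import Pool.Agent.Rev.GFun

set_option autoImplicit false
open scoped ContDiff
open Real Set

namespace Pool.Agent.Rev

variable {r : ℝ} {A B R G : ℝ → ℝ} {f : E3 → ℝ}

/-- A continuous positive periodic speed has a differentiable inverse clock. -/
lemma exists_clock {s : ℝ → ℝ} (hs : Continuous s) (hpos : ∀ x, 0 < s x)
    (hper : Function.Periodic s (2 * π)) :
    ∃ χ : ℝ → ℝ, StrictMono χ ∧ χ 0 = 0 ∧ Function.Surjective χ ∧
      ∀ t, HasDerivAt χ (1 / s (χ t)) t := by
  have h2π : (0 : ℝ) < 2 * π := by positivity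
  obtain ⟨m, hm, hms⟩ : ∃ m, 0 < m ∧ ∀ x, m ≤ s x := by
    obtain ⟨x0, -, hx0⟩ := (isCompact_Icc (a := (0 : ℝ)) (b := 2 * π)).exists_isMinOn
      ⟨0, left_mem_Icc.2 h2π.le⟩ hs.continuousOn
    refine ⟨s x0, hpos x0, fun x => ?_⟩
    obtain ⟨y, hy, hxy⟩ := hper.exists_mem_Ico₀ h2π x
    rw [hxy]
    exact hx0 (Ico_subset_Icc_self hy)
  set tt : ℝ → ℝ := fun x => ∫ u in (0 : ℝ)..x, s u with htt
  have hd : ∀ x, HasDerivAt tt (s x) x := fun x =>
    intervalIntegral.integral_hasDerivAt_right (hs.intervalIntegrable _ _)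
      (hs.stronglyMeasurableAtFilter _ _) hs.continuousAt
  have hmono : StrictMono tt := strictMono_of_deriv_pos (fun x => by
    rw [(hd x).deriv]; exact hpos x)
  have hcont : Continuous tt := continuous_iff_continuousAt.2 fun x => (hd x).continuousAt
  have ht0 : tt 0 = 0 := by simp [htt]
  have hdm : ∀ x, HasDerivAt (fun x => tt x - m * x) (s x - m * 1) x := fun x =>
    (hd x).sub ((hasDerivAt_id x).const_mul m)
  have hmon2 : Monotone (fun x => tt x - m * x) := by
    refine monotone_of_deriv_nonneg (fun x => (hdm x).differentiableAt) (fun x => ?_)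
    rw [(hdm x).deriv]
    have := hms x
    linarith
  have hsurj : Function.Surjective tt := by
    apply hcont.surjective
    · refine Filter.tendsto_atTop_mono' _ ?_ (Filter.tendsto_id.const_mul_atTop hm)
      filter_upwards [Filter.eventually_ge_atTop 0] with x hx
      have := hmon2 hx
      simp only [ht0, mul_zero, sub_zero, id] at this ⊢
      linarith
    · refine Filter.tendsto_atBot_mono' _ ?_ (Filter.tendsto_id.const_mul_atBot hm)
      filter_upwards [Filter.eventually_le_atBot 0] with x hx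
      have := hmon2 hx
      simp only [ht0, mul_zero, sub_zero, id] at this ⊢
      linarith
  let e : ℝ ≃o ℝ := hmono.orderIsoOfSurjective tt hsurj
  have he : ∀ x, e x = tt x := fun x => rfl
  refine ⟨e.symm, e.symm.strictMono, ?_, e.symm.surjective, fun t => ?_⟩
  · rw [OrderIso.symm_apply_eq, he, ht0]
  · rw [one_div]
    refine HasDerivAt.of_local_left_inverse e.symm.continuous.continuousAt (hd _)
      (hpos _).ne' (Filter.Eventually.of_forall fun y => ?_)
    rw [← he, OrderIso.apply_symm_apply]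

lemma abs_mul_sin_lt {a : ℝ} (ha : 0 < a) (ha1 : a < 1) (x : ℝ) : |a * sin x| < 1 := by
  rw [abs_mul, abs_of_pos ha]
  have := abs_sin_le_one x
  nlinarith [abs_nonneg (sin x)]

/-- For every `a ∈ (0,1)` there is an explicit solution of the geodesic equations in the
coordinates (normal angle `φ`, longitude `θ`), driven by the phase `χ` with
`sin β = a sin χ`, `G (a sin χ) = φ`. -/
theorem exists_flow (h : Prof r A R) (hG : GF r A R G) {a : ℝ} (ha : 0 < a) (ha1 : a < 1) :
    ∃ χ φ θ p : ℝ → ℝ,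
      StrictMono χ ∧ χ 0 = 0 ∧ Function.Surjective χ ∧
      (∀ t, φ t = G (a * sin (χ t))) ∧
      (∀ t, HasDerivAt χ (1 / (r * Hf G (a * sin (χ t)))) t) ∧
      (∀ t, p t = r * a * cos (χ t) / A (φ t)) ∧
      (∀ t, HasDerivAt φ (p t / R (φ t)) t) ∧
      (∀ t, HasDerivAt p (-(sin (φ t) * (r ^ 2 * (1 - a ^ 2)) / A (φ t) ^ 3)) t) ∧
      θ 0 = 0 ∧
      (∀ t, HasDerivAt θ (r * sqrt (1 - a ^ 2) / A (φ t) ^ 2) t) ∧
      (∀ t, p t ^ 2 + r ^ 2 * (1 - a ^ 2) / A (φ t) ^ 2 = 1) ∧
      (∀ t, 0 < A (φ t)) ∧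
      (∀ (t : ℝ) (k : ℤ), χ t = 2 * π * k → θ t = k * Rot (Hf G) a) := by
  have hr := h.rpos
  have hx1 : ∀ x, |a * sin x| < 1 := abs_mul_sin_lt ha ha1
  have hHc : Continuous (fun x => Hf G (a * sin x)) :=
    (Hf_cont hG).comp_continuous (by fun_prop) (fun x => abs_lt.1 (hx1 x))
  have hHpos : ∀ x, 0 < Hf G (a * sin x) := fun x => Hf_pos hG (hx1 x)
  obtain ⟨χ, hχm, hχ0, hχs, hχd⟩ := exists_clock (s := fun x => r * Hf G (a * sin x))
    (by fun_prop) (fun x => mul_pos hr (hHpos x)) (fun x => by simp only [sin_add_two_pi])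
  have hsq : ∀ x, 0 < 1 - (a * sin x) ^ 2 := fun x => by
    have := hx1 x
    rw [← sq_abs]
    nlinarith [abs_nonneg (a * sin x)]
  have hAeq : ∀ x, A (G (a * sin x)) = r * sqrt (1 - (a * sin x) ^ 2) := fun x => hG.eq _ (hx1 x)
  have hApos : ∀ x, 0 < A (G (a * sin x)) := fun x => by
    rw [hAeq]; exact mul_pos hr (sqrt_pos.2 (hsq x))
  have hAsq : ∀ x, A (G (a * sin x)) ^ 2 = r ^ 2 * (1 - (a * sin x) ^ 2) := fun x => by
    rw [hAeq, mul_pow, sq_sqrt (hsq x).le]
  -- derivative of φ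
  have hφ : ∀ t, HasDerivAt (fun t => G (a * sin (χ t)))
      (r * a * cos (χ t) / A (G (a * sin (χ t))) / R (G (a * sin (χ t)))) t := by
    intro t
    have h1 := (G_deriv h hG (hx1 (χ t))).comp t (((hχd t).sin).const_mul a)
    refine h1.congr_deriv ?_
    have h2 := (hHpos (χ t)).ne'
    have h3 := (hApos (χ t)).ne'
    have h4 := (h.Rpos (G (a * sin (χ t)))).ne'
    have h5 := hr.ne'
    field_simp
  have hAd : ∀ t, HasDerivAt (fun t => A (G (a * sin (χ t))))
      (-(sin (G (a * sin (χ t))) * (r * a * cos (χ t) / A (G (a * sin (χ t)))))) t := by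
    intro t
    have h1 := (h.dA (G (a * sin (χ t)))).comp t (hφ t)
    refine h1.congr_deriv ?_
    have h4 := (h.Rpos (G (a * sin (χ t)))).ne'
    field_simp
  set c := sqrt (1 - a ^ 2) with hc
  have hc2 : c ^ 2 = 1 - a ^ 2 := sq_sqrt (by nlinarith)
  set g : ℝ → ℝ := fun u => Hf G (a * sin u) / (1 - (a * sin u) ^ 2) with hg
  have hgc : Continuous g := hHc.div (by fun_prop) (fun x => (hsq x).ne')
  have hgper : Function.Periodic g (2 * π) := fun x => by simp only [hg, sin_add_two_pi]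
  have hΘ : ∀ x, HasDerivAt (fun x => c * ∫ u in (0 : ℝ)..x, g u) (c * g x) x := fun x =>
    (intervalIntegral.integral_hasDerivAt_right (hgc.intervalIntegrable _ _)
      (hgc.stronglyMeasurableAtFilter _ _) hgc.continuousAt).const_mul c
  refine ⟨χ, fun t => G (a * sin (χ t)), fun t => c * ∫ u in (0 : ℝ)..(χ t), g u,
    fun t => r * a * cos (χ t) / A (G (a * sin (χ t))), hχm, hχ0, hχs, fun t => rfl, hχd,
    fun t => rfl, hφ, fun t => ?_, ?_, fun t => ?_, fun t => ?_, fun t => hApos _,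
    fun t k hk => ?_⟩
  · -- derivative of p
    have h1 := (((hχd t).cos).const_mul (r * a)).div (hAd t) (hApos (χ t)).ne'
    refine h1.congr_deriv ?_
    have h2 := (hHpos (χ t)).ne'
    have h3 := (hApos (χ t)).ne'
    have h5 := hr.ne'
    have h6 := Hf_mul hG (hx1 (χ t))
    have h7 := hAsq (χ t)
    have h8 := sin_sq_add_cos_sq (χ t)
    set S := sin (G (a * sin (χ t)))
    set AA := A (G (a * sin (χ t)))
    set HH := Hf G (a * sin (χ t))
    set sx := sin (χ t)
    set cx := cos (χ t)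
    have h9 : a * -(sx) * (1 / (r * HH)) = -(S / r) := by
      rw [show a * -sx * (1 / (r * HH)) = -((a * sx) / (r * HH)) by ring, ← h6]
      field_simp
    rw [show r * a * (-sx * (1 / (r * HH))) = r * (a * -(sx) * (1 / (r * HH))) by ring, h9]
    field_simp
    have h10 : (r * a * cx) ^ 2 = AA ^ 2 - r ^ 2 * (1 - a ^ 2) := by
      rw [h7]
      linear_combination (r ^ 2 * a ^ 2) * h8
    linear_combination S * h10
  · simp [hχ0]
  · have h1 := (hΘ (χ t)).comp t (hχd t)
    refine h1.congr_deriv ?_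
    have h2 := (hHpos (χ t)).ne'
    have h3 := (hsq (χ t)).ne'
    have h5 := hr.ne'
    rw [hAsq]
    simp only [hg]
    field_simp
  · have h3 := (hApos (χ t)).ne'
    have h8 := sin_sq_add_cos_sq (χ t)
    rw [div_pow, ← add_div, div_eq_one_iff_eq (pow_ne_zero 2 h3), hAsq]
    linear_combination (r ^ 2 * a ^ 2) * h8
  · have h1 := hgper.intervalIntegral_add_zsmul_eq k 0 (fun _ _ => hgc.intervalIntegrable _ _)
    simp only [zero_add, zsmul_eq_mul] at h1
    show c * ∫ u in (0 : ℝ)..(χ t), g u = _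
    rw [hk, show 2 * π * (k : ℝ) = k * (2 * π) by ring, h1]
    simp only [Rot]
    ring

/-- Smoothness of the solutions. -/
theorem flow_smooth (h : Prof r A R) {a : ℝ} {φ θ p : ℝ → ℝ}
    (hφ : ∀ t, HasDerivAt φ (p t / R (φ t)) t)
    (hp : ∀ t, HasDerivAt p (-(sin (φ t) * (r ^ 2 * (1 - a ^ 2)) / A (φ t) ^ 3)) t)
    (hθ : ∀ t, HasDerivAt θ (r * sqrt (1 - a ^ 2) / A (φ t) ^ 2) t)
    (hA : ∀ t, 0 < A (φ t)) :
    ContDiff ℝ ∞ φ ∧ ContDiff ℝ ∞ p ∧ ContDiff ℝ ∞ θ := by
  have key : ∀ n : ℕ, ContDiff ℝ n φ ∧ ContDiff ℝ n p ∧ ContDiff ℝ n θ := by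
    intro n
    induction n with
    | zero =>
      simp only [Nat.cast_zero, contDiff_zero]
      exact ⟨continuous_iff_continuousAt.2 fun t => (hφ t).continuousAt,
        continuous_iff_continuousAt.2 fun t => (hp t).continuousAt,
        continuous_iff_continuousAt.2 fun t => (hθ t).continuousAt⟩
    | succ n ih =>
      obtain ⟨i1, i2, i3⟩ := ih
      have hAn : ContDiff ℝ n (fun t => A (φ t)) := (h.smA.of_le (by exact_mod_cast le_top)).comp i1
      have hRn : ContDiff ℝ n (fun t => R (φ t)) := (h.smR.of_le (by exact_mod_cast le_top)).comp i1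
      have e1 : deriv φ = fun t => p t / R (φ t) := funext fun t => (hφ t).deriv
      have e2 : deriv p = fun t => -(sin (φ t) * (r ^ 2 * (1 - a ^ 2)) / A (φ t) ^ 3) :=
        funext fun t => (hp t).deriv
      have e3 : deriv θ = fun t => r * sqrt (1 - a ^ 2) / A (φ t) ^ 2 :=
        funext fun t => (hθ t).deriv
      push_cast
      refine ⟨?_, ?_, ?_⟩
      · rw [contDiff_succ_iff_deriv]
        refine ⟨fun t => (hφ t).differentiableAt, by simp, ?_⟩
        rw [e1]
        exact i2.div hRn (fun t => (h.Rpos _).ne')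
      · rw [contDiff_succ_iff_deriv]
        refine ⟨fun t => (hp t).differentiableAt, by simp, ?_⟩
        rw [e2]
        exact ((i1.sin.mul contDiff_const).div (hAn.pow 3) (fun t => pow_ne_zero 3 (hA t).ne')).neg
      · rw [contDiff_succ_iff_deriv]
        refine ⟨fun t => (hθ t).differentiableAt, by simp, ?_⟩
        rw [e3]
        exact contDiff_const.div (hAn.pow 2) (fun t => pow_ne_zero 2 (hA t).ne')
  exact ⟨contDiff_infty.2 fun n => (key n).1, contDiff_infty.2 fun n => (key n).2.1,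
    contDiff_infty.2 fun n => (key n).2.2⟩

end Pool.Agent.Rev
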