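import Pool.Agent.Rev.Geo1

set_option autoImplicit false
open scoped ContDiff
open Real Set

namespace Pool.Agent.Rev

variable {r : ℝ} {A B R G : ℝ → ℝ} {f : E3 → ℝ}

theorem hasDerivAt_pt {x y z : ℝ → ℝ} {x' y' z' t : ℝ} (hx : HasDerivAt x x' t)
    (hy : HasDerivAt y y' t) (hz : HasDerivAt z z' t) :
    HasDerivAt (fun t => pt (x t) (y t) (z t)) (pt x' y' z') t := by
  have h := ((hx.smul_const (pt 1 0 0)).add (hy.smul_const (pt 0 1 0))).add
    (hz.smul_const (pt 0 0 1))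
  have e1 : (fun t => pt (x t) (y t) (z t)) =
      ((fun y => x y • pt 1 0 0) + fun s => y s • pt 0 1 0) + fun y => z y • pt 0 0 1 := by
    funext s
    simp [smul_pt, pt_add]
  rw [e1]
  refine h.congr_deriv ?_
  simp [smul_pt, pt_add]

theorem contDiff_pt {x y z : ℝ → ℝ} (hx : ContDiff ℝ ∞ x) (hy : ContDiff ℝ ∞ y)
    (hz : ContDiff ℝ ∞ z) : ContDiff ℝ ∞ (fun t => pt (x t) (y t) (z t)) := by
  rw [contDiff_euclidean]
  intro i
  fin_cases i
  · exact hx
  · exact hy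
  · exact hz

/-- The curve `(A φ cos θ, A φ sin θ, B φ)` is a unit speed curve whose second derivative is
normal. -/
theorem curve_geodesic (h : Prof r A R) (smB : ContDiff ℝ ∞ B)
    (dB : ∀ φ, HasDerivAt B (R φ * cos φ) φ) {a : ℝ} (ha : 0 < a) (ha1 : a < 1) {φ θ p : ℝ → ℝ}
    (hφ : ∀ t, HasDerivAt φ (p t / R (φ t)) t)
    (hp : ∀ t, HasDerivAt p (-(sin (φ t) * (r ^ 2 * (1 - a ^ 2)) / A (φ t) ^ 3)) t)
    (hθ : ∀ t, HasDerivAt θ (r * sqrt (1 - a ^ 2) / A (φ t) ^ 2) t)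
    (hE : ∀ t, p t ^ 2 + r ^ 2 * (1 - a ^ 2) / A (φ t) ^ 2 = 1)
    (hA : ∀ t, 0 < A (φ t)) :
    ContDiff ℝ ∞ (fun t => pt (A (φ t) * cos (θ t)) (A (φ t) * sin (θ t)) (B (φ t))) ∧
    (∀ t, ‖deriv (fun t => pt (A (φ t) * cos (θ t)) (A (φ t) * sin (θ t)) (B (φ t))) t‖ = 1) ∧
    (∀ t, deriv (fun t => pt (A (φ t) * cos (θ t)) (A (φ t) * sin (θ t)) (B (φ t))) t 2
        = p t * cos (φ t)) ∧
    (∀ t, ∃ l : ℝ,
      iteratedDeriv 2 (fun t => pt (A (φ t) * cos (θ t)) (A (φ t) * sin (θ t)) (B (φ t))) t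
        = l • pt (cos (φ t) * cos (θ t)) (cos (φ t) * sin (θ t)) (sin (φ t))) := by
  obtain ⟨sφ, sp, sθ⟩ := flow_smooth h hφ hp hθ hA
  set c : ℝ := sqrt (1 - a ^ 2) with hc
  have hc2 : c ^ 2 = 1 - a ^ 2 := Real.sq_sqrt (by nlinarith)
  -- the derivatives of the ingredients
  have dAφ : ∀ t, HasDerivAt (fun t => A (φ t)) (-(p t * sin (φ t))) t := by
    intro t
    refine ((h.dA (φ t)).comp t (hφ t)).congr_deriv ?_
    have := (h.Rpos (φ t)).ne'
    field_simp
  have dBφ : ∀ t, HasDerivAt (fun t => B (φ t)) (p t * cos (φ t)) t := by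
    intro t
    refine ((dB (φ t)).comp t (hφ t)).congr_deriv ?_
    have := (h.Rpos (φ t)).ne'
    field_simp
  have dcθ : ∀ t, HasDerivAt (fun t => cos (θ t)) (-sin (θ t) * (r * c / A (φ t) ^ 2)) t :=
    fun t => (hθ t).cos
  have dsθ : ∀ t, HasDerivAt (fun t => sin (θ t)) (cos (θ t) * (r * c / A (φ t) ^ 2)) t :=
    fun t => (hθ t).sin
  have dcφ : ∀ t, HasDerivAt (fun t => cos (φ t)) (-sin (φ t) * (p t / R (φ t))) t :=
    fun t => (hφ t).cos
  have dsφ : ∀ t, HasDerivAt (fun t => sin (φ t)) (cos (φ t) * (p t / R (φ t))) t :=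
    fun t => (hφ t).sin
  have dγ : ∀ t, HasDerivAt (fun t => pt (A (φ t) * cos (θ t)) (A (φ t) * sin (θ t)) (B (φ t)))
      (pt (-(p t * sin (φ t) * cos (θ t)) - r * c / A (φ t) * sin (θ t))
        (-(p t * sin (φ t) * sin (θ t)) + r * c / A (φ t) * cos (θ t)) (p t * cos (φ t))) t := by
    intro t
    refine hasDerivAt_pt ?_ ?_ (dBφ t)
    · refine ((dAφ t).mul (dcθ t)).congr_deriv ?_
      have := (hA t).ne'
      field_simp
      ring
    · refine ((dAφ t).mul (dsθ t)).congr_deriv ?_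
      have := (hA t).ne'
      field_simp
  have hderiv : deriv (fun t => pt (A (φ t) * cos (θ t)) (A (φ t) * sin (θ t)) (B (φ t))) =
      fun t => pt (-(p t * sin (φ t) * cos (θ t)) - r * c / A (φ t) * sin (θ t))
        (-(p t * sin (φ t) * sin (θ t)) + r * c / A (φ t) * cos (θ t)) (p t * cos (φ t)) := by
    funext t
    exact (dγ t).deriv
  refine ⟨?_, ?_, ?_, ?_⟩
  · exact contDiff_pt ((h.smA.comp sφ).mul (contDiff_cos.comp sθ))
      ((h.smA.comp sφ).mul (contDiff_sin.comp sθ)) (smB.comp sφ)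
  · intro t
    rw [hderiv]
    simp only
    have h1 := norm_pt_sq (-(p t * sin (φ t) * cos (θ t)) - r * c / A (φ t) * sin (θ t))
        (-(p t * sin (φ t) * sin (θ t)) + r * c / A (φ t) * cos (θ t)) (p t * cos (φ t))
    have h2 : (-(p t * sin (φ t) * cos (θ t)) - r * c / A (φ t) * sin (θ t)) ^ 2 +
        (-(p t * sin (φ t) * sin (θ t)) + r * c / A (φ t) * cos (θ t)) ^ 2 +
        (p t * cos (φ t)) ^ 2 = 1 := by
      have e1 := hE t
      have e2 := sin_sq_add_cos_sq (θ t)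
      have e3 := sin_sq_add_cos_sq (φ t)
      have e4 : (r * c / A (φ t)) ^ 2 = r ^ 2 * (1 - a ^ 2) / A (φ t) ^ 2 := by
        rw [div_pow, mul_pow, hc2]
      rw [← e4] at e1
      calc _ = (p t * sin (φ t)) ^ 2 * (sin (θ t) ^ 2 + cos (θ t) ^ 2) +
            (r * c / A (φ t)) ^ 2 * (sin (θ t) ^ 2 + cos (θ t) ^ 2) + (p t * cos (φ t)) ^ 2 := by
            ring
        _ = p t ^ 2 * (sin (φ t) ^ 2 + cos (φ t) ^ 2) + (r * c / A (φ t)) ^ 2 := by
            rw [e2]; ring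
        _ = 1 := by rw [e3]; linarith
    rw [h2] at h1
    have h3 := norm_nonneg (pt (-(p t * sin (φ t) * cos (θ t)) - r * c / A (φ t) * sin (θ t))
        (-(p t * sin (φ t) * sin (θ t)) + r * c / A (φ t) * cos (θ t)) (p t * cos (φ t)))
    nlinarith
  · intro t
    rw [hderiv]
    rfl
  · intro t
    have dq : HasDerivAt (fun t => r * c / A (φ t)) (r * c * (p t * sin (φ t)) / A (φ t) ^ 2) t := by
      have h1 := (dAφ t).fun_inv (hA t).ne'
      have h2 := h1.const_mul (r * c)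
      refine h2.congr_deriv ?_
      ring
    have d2 : HasDerivAt (fun t => pt (-(p t * sin (φ t) * cos (θ t)) - r * c / A (φ t) * sin (θ t))
        (-(p t * sin (φ t) * sin (θ t)) + r * c / A (φ t) * cos (θ t)) (p t * cos (φ t)))
        ((-(p t ^ 2 / R (φ t) + r ^ 2 * c ^ 2 * cos (φ t) / A (φ t) ^ 3)) •
          pt (cos (φ t) * cos (θ t)) (cos (φ t) * sin (θ t)) (sin (φ t))) t := by
      rw [smul_pt]
      have hAt := (hA t).ne'
      have hRt := (h.Rpos (φ t)).ne'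
      have hs2 : sin (φ t) ^ 2 = 1 - cos (φ t) ^ 2 := by
        have := sin_sq_add_cos_sq (φ t)
        linarith
      refine hasDerivAt_pt ?_ ?_ ?_
      · refine (((((hp t).mul (dsφ t)).mul (dcθ t)).neg).sub (dq.mul (dsθ t))).congr_deriv ?_
        rw [← hc2]
        simp only [Pi.mul_apply]
        field_simp
        rw [hs2]
        ring
      · refine (((((hp t).mul (dsφ t)).mul (dsθ t)).neg).add (dq.mul (dcθ t))).congr_deriv ?_
        rw [← hc2]
        simp only [Pi.mul_apply]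
        field_simp
        rw [hs2]
        ring
      · refine ((hp t).mul (dcφ t)).congr_deriv ?_
        rw [← hc2]
        field_simp
        ring
    rw [iteratedDeriv_succ, iteratedDeriv_one, hderiv]
    exact ⟨_, d2.deriv⟩

/-- Closed geodesics have rational rotation. -/
theorem rot_rational (h : Prof r A R) (hG : GF r A R G) (smB : ContDiff ℝ ∞ B)
    (dB : ∀ φ, HasDerivAt B (R φ * cos φ) φ)
    (hS : ∀ φ θ, f (pt (A φ * cos θ) (A φ * sin θ) (B φ)) = 0 ∧
      ∃ c : ℝ, 0 < c ∧ gradient f (pt (A φ * cos θ) (A φ * sin θ) (B φ)) =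
        c • pt (cos φ * cos θ) (cos φ * sin θ) (sin φ))
    (hcl : AllClosed f) {a : ℝ} (ha : 0 < a) (ha1 : a < 1) :
    ∃ k m : ℤ, 0 < k ∧ k * Rot (Hf G) a = 2 * π * m := by
  obtain ⟨χ, φ, θ, p, hmono, hχ0, hsurj, hφG, hχd, hpe, hφd, hpd, hθ0, hθd, hE, hA, hRot⟩ :=
    exists_flow h hG ha ha1
  obtain ⟨c1, c2, c3, c4⟩ := curve_geodesic h smB dB ha ha1 hφd hpd hθd hE hA
  set γ : ℝ → E3 := fun t => pt (A (φ t) * cos (θ t)) (A (φ t) * sin (θ t)) (B (φ t)) with hγ
  obtain ⟨T, hT, hper⟩ := hcl γ c1 (fun t => (hS _ _).1) c2 (fun t => by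
    obtain ⟨l, hl⟩ := c4 t
    obtain ⟨c, hc, hg⟩ := (hS (φ t) (θ t)).2
    refine ⟨l / c, ?_⟩
    rw [hl]
    change _ = (l / c) • gradient f (pt (A (φ t) * cos (θ t)) (A (φ t) * sin (θ t)) (B (φ t)))
    rw [hg, smul_smul, div_mul_cancel₀ _ hc.ne'])
  have hφ0 : φ 0 = 0 := by
    rw [hφG, hχ0, sin_zero, mul_zero, hG.zero]
  have h0 := hper 0
  rw [zero_add] at h0
  have hx : A (φ T) * cos (θ T) = r := by
    have := congrArg (fun v : E3 => v 0) h0
    simp only [hγ, pt_zero, hφ0, hθ0, cos_zero, mul_one, h.A0] at this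
    exact this
  have hy : A (φ T) * sin (θ T) = 0 := by
    have := congrArg (fun v : E3 => v 1) h0
    simp only [hγ, pt_one, hφ0, hθ0, sin_zero, mul_zero] at this
    exact this
  have hsθ : sin (θ T) = 0 := by
    rcases mul_eq_zero.1 hy with h1 | h1
    · exact absurd h1 (hA T).ne'
    · exact h1
  have hcθ0 : 0 < cos (θ T) := by
    by_contra hn
    rw [not_lt] at hn
    have : A (φ T) * cos (θ T) ≤ 0 := mul_nonpos_of_nonneg_of_nonpos (hA T).le hn
    rw [hx] at this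
    exact absurd h.rpos (not_lt.2 this)
  have hcθ : cos (θ T) = 1 := by
    have := sin_sq_add_cos_sq (θ T)
    rw [hsθ] at this
    nlinarith
  have hAT : A (φ T) = r := by rwa [hcθ, mul_one] at hx
  have hlt : |a * sin (χ T)| < 1 := by
    rw [abs_mul, abs_of_pos ha]
    have := abs_sin_le_one (χ T)
    nlinarith [abs_nonneg (sin (χ T))]
  have hsχ : a * sin (χ T) = 0 := by
    have e1 := hG.eq _ hlt
    rw [← hφG, hAT] at e1
    have e2 : sqrt (1 - (a * sin (χ T)) ^ 2) = 1 := by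
      have := h.rpos.ne'
      have e3 : r * sqrt (1 - (a * sin (χ T)) ^ 2) = r * 1 := by rw [mul_one]; exact e1.symm
      exact mul_left_cancel₀ this e3
    rw [Real.sqrt_eq_one] at e2
    have e4 : (a * sin (χ T)) ^ 2 = 0 := by linarith
    exact pow_eq_zero_iff (two_ne_zero) |>.1 e4
  have hφT : φ T = 0 := by rw [hφG, hsχ, hG.zero]
  have hder : deriv γ (0 + T) = deriv γ 0 := by
    rw [← deriv_comp_add_const]
    congr 1
    funext t
    exact hper t
  rw [zero_add] at hder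
  have hp : p T = p 0 := by
    have := congrArg (fun v : E3 => v 2) hder
    simp only at this
    rw [c3 T, c3 0, hφT, hφ0, cos_zero, mul_one, mul_one] at this
    exact this
  have hcχ : cos (χ T) = 1 := by
    rw [hpe T, hpe 0, hφT, hφ0, hχ0, cos_zero, h.A0, mul_one] at hp
    have hr := h.rpos.ne'
    have ha' := ha.ne'
    field_simp at hp
    exact hp
  obtain ⟨k, hk⟩ := (Real.cos_eq_one_iff _).1 hcχ
  obtain ⟨m, hm⟩ := (Real.cos_eq_one_iff _).1 hcθ
  have hχT : 0 < χ T := by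
    rw [← hχ0]
    exact hmono hT
  refine ⟨k, m, ?_, ?_⟩
  · rw [← hk] at hχT
    have : (0 : ℝ) < k := by
      by_contra hn
      rw [not_lt] at hn
      have h2 : (k : ℝ) * (2 * π) ≤ 0 := mul_nonpos_of_nonpos_of_nonneg hn (by positivity)
      linarith
    exact_mod_cast this
  · rw [← hRot T k (by rw [← hk]; ring), ← hm]
    ring

end Pool.Agent.Rev
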