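import Pool.Agent.Rev.Conv

set_option autoImplicit false
open scoped ContDiff
open Real Set

namespace Pool.Agent.Rev

variable {K : Set E3} {f : E3 → ℝ} {w : ℝ} {A B R : ℝ → ℝ}

lemma pt_inj {a b c x y z : ℝ} (h : pt a b c = pt x y z) : a = x ∧ b = y ∧ c = z := by
  have h0 := congrArg (fun p : E3 => p 0) h
  have h1 := congrArg (fun p : E3 => p 1) h
  have h2 := congrArg (fun p : E3 => p 2) h
  simpa using ⟨h0, h1, h2⟩

/-- Opposite points. -/
lemma prof_opp (hB : Body K f w) (hP : Profile K A B R) (φ : ℝ) :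
    A (φ + π) = A φ - w * cos φ := by
  have h1 := nor_opp hB (hP.nor φ)
  have h2 := hP.nor (φ + π)
  rw [cos_add_pi, sin_add_pi] at h2
  rw [pt_neg, neg_zero] at h1
  have h3 := nor_unique hB h2 h1
  rw [smul_pt, pt_sub] at h3
  exact (pt_inj h3).1

/-- Reflected points. -/
lemma prof_refl (hB : Body K f w) (hP : Profile K A B R) (φ : ℝ) : A (π - φ) = -A φ := by
  have h1 := nor_refl hB (hP.nor φ)
  have h2 := hP.nor (π - φ)
  rw [cos_pi_sub, sin_pi_sub] at h2
  exact (pt_inj (nor_unique hB h2 h1)).1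

/-- Consequences of constant width and of the symmetries. -/
theorem prof_of_profile (hB : Body K f w) (hP : Profile K A B R) : Prof (w / 2) A R := by
  have hw := hB.wpos
  have Asum : ∀ φ, A φ + A (-φ) = 2 * (w / 2) * cos φ := by
    intro φ
    have h1 := prof_opp hB hP φ
    have h2 := prof_refl hB hP (-φ)
    rw [sub_neg_eq_add, add_comm π φ] at h2
    linarith
  have A0 : A 0 = w / 2 := by
    have h1 := Asum 0
    rw [neg_zero, cos_zero] at h1
    linarith
  have AN : A (π / 2) = 0 := by
    have h1 := prof_refl hB hP (π / 2)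
    rw [show π - π / 2 = π / 2 by ring] at h1
    linarith
  have AS : A (-(π / 2)) = 0 := by
    have h1 := Asum (π / 2)
    rw [cos_pi_div_two, AN] at h1
    linarith
  have hAc : Continuous A := hP.smA.continuous
  have hRc : Continuous R := hP.smR.continuous
  have hRsum : ∀ φ, (R φ + R (-φ) - 2 * (w / 2)) * sin φ = 0 := by
    intro φ
    have h1 : HasDerivAt (fun φ => A φ + A (-φ))
        (-(R φ * sin φ) + (-(R (-φ) * sin (-φ))) * (-1)) φ :=
      (hP.dA φ).add ((hP.dA (-φ)).comp φ (hasDerivAt_neg φ))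
    have h2 : HasDerivAt (fun φ => A φ + A (-φ)) (2 * (w / 2) * (-sin φ)) φ := by
      rw [show (fun φ => A φ + A (-φ)) = fun φ => 2 * (w / 2) * cos φ from funext Asum]
      exact (hasDerivAt_cos φ).const_mul _
    have h3 := h1.unique h2
    rw [sin_neg] at h3
    linarith
  have R0 : R 0 = w / 2 := by
    have hcl : IsClosed {x : ℝ | R x + R (-x) - 2 * (w / 2) = 0} :=
      isClosed_eq (by fun_prop) continuous_const
    have hsub : Ioo (0 : ℝ) π ⊆ {x : ℝ | R x + R (-x) - 2 * (w / 2) = 0} := by
      intro x hx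
      have h1 := hRsum x
      have h2 := sin_pos_of_pos_of_lt_pi hx.1 hx.2
      rcases mul_eq_zero.1 h1 with h3 | h3
      · exact h3
      · exact absurd h3 h2.ne'
    have h0 : (0 : ℝ) ∈ closure (Ioo (0 : ℝ) π) := by
      rw [closure_Ioo pi_pos.ne]
      exact ⟨le_rfl, pi_pos.le⟩
    have h1 := (closure_minimal hsub hcl) h0
    simp only [mem_setOf_eq, neg_zero] at h1
    linarith
  have Apos : ∀ φ, |φ| < π / 2 → 0 < A φ := by
    intro φ hφ
    rw [abs_lt] at hφ
    rcases le_total 0 φ with h0 | h0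
    · have hanti : StrictAntiOn A (Icc 0 (π / 2)) := by
        refine strictAntiOn_of_deriv_neg (convex_Icc _ _) hAc.continuousOn fun x hx => ?_
        rw [interior_Icc] at hx
        rw [(hP.dA x).deriv]
        have h1 := hP.Rpos x
        have h2 := sin_pos_of_pos_of_lt_pi hx.1 (by linarith [hx.2, pi_pos])
        have := mul_pos h1 h2
        linarith
      rw [← AN]
      exact hanti ⟨h0, hφ.2.le⟩ ⟨by positivity, le_rfl⟩ hφ.2
    · have hmono : StrictMonoOn A (Icc (-(π / 2)) 0) := by
        refine strictMonoOn_of_deriv_pos (convex_Icc _ _) hAc.continuousOn fun x hx => ?_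
        rw [interior_Icc] at hx
        rw [(hP.dA x).deriv]
        have h1 := hP.Rpos x
        have h2 := sin_neg_of_neg_of_neg_pi_lt hx.2 (by linarith [hx.1, pi_pos])
        have := mul_neg_of_pos_of_neg h1 h2
        linarith
      rw [← AS]
      exact hmono ⟨le_rfl, by linarith [pi_pos]⟩ ⟨hφ.1.le, h0⟩ hφ.1
  exact
    { rpos := by linarith
      smA := hP.smA
      smR := hP.smR
      Rpos := hP.Rpos
      dA := hP.dA
      A0 := A0
      R0 := R0
      Apos := Apos
      AN := AN
      AS := AS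
      Asum := Asum }

/-- The rotated meridian lies on the surface, and the gradient is normal to the torus frame. -/
theorem surf_of_profile (hB : Body K f w) (hP : Profile K A B R) (φ θ : ℝ) :
    f (pt (A φ * cos θ) (A φ * sin θ) (B φ)) = 0 ∧
    ∃ c : ℝ, 0 < c ∧ gradient f (pt (A φ * cos θ) (A φ * sin θ) (B φ)) =
      c • pt (cos φ * cos θ) (cos φ * sin θ) (sin φ) := by
  have h1 := nor_grad hB (nor_rot hB (hP.nor φ) θ)
  exact ⟨h1.1, _, norm_pos_iff.2 (hB.reg _ h1.1), h1.2⟩

end Pool.Agent.Rev
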