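import Pool.Agent.Rev.Merid
import Pool.Agent.Rev.ProfFacts
import Pool.Agent.Rev.Geo2
import Pool.Agent.Rev.Abel
import Pool.Agent.Rev.Func

set_option autoImplicit false
open scoped ContDiff
open Real Set

namespace Pool.Agent.Rev

variable {K : Set E3} {f : E3 → ℝ} {w : ℝ}

/-- The radius of curvature is constant once the half meridian has the radii of a circle. -/
lemma radius_const {r : ℝ} {A R : ℝ → ℝ} (h : Prof r A R)
    (hA : ∀ φ, |φ| ≤ π / 2 → A φ = r * cos φ) {φ : ℝ} (hφ : |φ| < π / 2) : R φ = r := by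
  rcases eq_or_ne φ 0 with h0 | h0
  · rw [h0, h.R0]
  · have h1 : HasDerivAt (fun x => r * cos x) (r * -sin φ) φ := (hasDerivAt_cos φ).const_mul r
    have h2 : A =ᶠ[nhds φ] fun x => r * cos x := by
      have h3 : ∀ᶠ x in nhds φ, |x| < π / 2 :=
        (continuous_abs.continuousAt).eventually_lt continuousAt_const hφ
      filter_upwards [h3] with x hx
      exact hA x hx.le
    have h4 := (h.dA φ).unique (h1.congr_of_eventuallyEq h2)
    rw [abs_lt] at hφ
    have h5 : sin φ ≠ 0 := by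
      rcases lt_or_gt_of_ne h0 with h6 | h6
      · exact (sin_neg_of_neg_of_neg_pi_lt h6 (by linarith [pi_pos])).ne
      · exact (sin_pos_of_pos_of_lt_pi h6 (by linarith [pi_pos])).ne'
    have h6 : R φ * sin φ = r * sin φ := by linarith
    exact mul_right_cancel₀ h5 h6

lemma height {r : ℝ} {A B R : ℝ → ℝ} (h : Prof r A R)
    (dB : ∀ φ, HasDerivAt B (R φ * cos φ) φ)
    (hA : ∀ φ, |φ| ≤ π / 2 → A φ = r * cos φ) {φ : ℝ} (hφ : |φ| ≤ π / 2) :
    B φ = B 0 + r * sin φ := by
  have hd : ∀ x, |x| < π / 2 → HasDerivAt (fun x => B x - r * sin x) 0 x := by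
    intro x hx
    have h1 := (dB x).sub ((hasDerivAt_sin x).const_mul r)
    rw [radius_const h hA hx, sub_self] at h1
    exact h1
  have hc : Continuous (fun x => B x - r * sin x) := by
    have : Continuous B := continuous_iff_continuousAt.mpr fun x => (dB x).continuousAt
    exact this.sub (continuous_const.mul continuous_sin)
  have key : ∀ a b : ℝ, a < b → (∀ x ∈ Ioo a b, |x| < π / 2) →
      B b - r * sin b = B a - r * sin a := by
    intro a b hab hx
    obtain ⟨c, hc1, hc2⟩ := exists_hasDerivAt_eq_slope (fun x => B x - r * sin x) (fun _ => 0) hab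
      hc.continuousOn (fun x hx' => hd x (hx x hx'))
    have h3 : b - a ≠ 0 := by linarith
    rw [eq_div_iff h3, zero_mul] at hc2
    linarith
  rw [abs_le] at hφ
  rcases lt_trichotomy φ 0 with h0 | h0 | h0
  · have := key φ 0 h0 (fun x hx => by
      rw [abs_lt]; exact ⟨by linarith [hx.1], by linarith [hx.2, pi_pos]⟩)
    rw [sin_zero] at this
    linarith
  · rw [h0, sin_zero]; ring
  · have := key 0 φ h0 (fun x hx => by
      rw [abs_lt]; exact ⟨by linarith [hx.1, pi_pos], by linarith [hx.2]⟩)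
    rw [sin_zero] at this
    linarith

/-- Spherical coordinates of a unit vector. -/
lemma unit_coords {u : E3} (hu : ‖u‖ = 1) : ∃ φ θ : ℝ, |φ| ≤ π / 2 ∧
    u = pt (cos φ * cos θ) (cos φ * sin θ) (sin φ) := by
  have h1 : (u 0) ^ 2 + (u 1) ^ 2 + (u 2) ^ 2 = 1 := by
    rw [← norm_pt_sq, pt_eta, hu]; norm_num
  have h2 : |u 2| ≤ 1 := by
    rw [← sq_le_one_iff_abs_le_one]
    nlinarith [sq_nonneg (u 0), sq_nonneg (u 1)]
  rw [abs_le] at h2
  refine ⟨arcsin (u 2), Complex.arg ⟨u 0, u 1⟩, ?_, ?_⟩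
  · rw [abs_le]
    exact ⟨neg_pi_div_two_le_arcsin _, arcsin_le_pi_div_two _⟩
  · have h3 : cos (arcsin (u 2)) = ‖(⟨u 0, u 1⟩ : ℂ)‖ := by
      rw [cos_arcsin, Complex.norm_def, Complex.normSq_mk]
      congr 1
      linarith
    rw [h3, Complex.norm_mul_cos_arg, Complex.norm_mul_sin_arg, sin_arcsin h2.1 h2.2, pt_eta]

theorem body_ball (hB : Body K f w) (hcl : AllClosed f) :
    ∃ (c : E3) (r : ℝ), K = Metric.closedBall c r := by
  obtain ⟨A, B, R, hP⟩ := exists_profile hB
  have h : Prof (w / 2) A R := prof_of_profile hB hP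
  obtain ⟨G, hG⟩ := exists_G h
  have hS := surf_of_profile hB hP
  have hH := H_add_eq_two (Hf_cont hG) Hf_zero
    (fun a ha => rot_rational h hG hP.smB hP.dB hS hcl ha.1 ha.2)
  have hA := profile_circle h (zoll_of_H h hG hH)
  refine ⟨pt 0 0 (B 0), w / 2, ball_of_nor hB _ _ ?_⟩
  intro p u hpu
  obtain ⟨φ, θ, hφ, hu⟩ := unit_coords hpu.2.1
  have h1 := nor_rot hB (hP.nor φ) θ
  rw [← hu] at h1
  rw [nor_unique hB hpu h1, hA φ hφ, height h hP.dB hA hφ, hu, smul_pt, pt_add]
  congr 1 <;> ring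

end Pool.Agent.Rev
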