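import Pool.Agent.Rev.Conv

set_option autoImplicit false
open scoped ContDiff Topology
open Real Set Filter

namespace Pool.Agent.Rev

variable {K : Set E3} {f : E3 → ℝ} {w : ℝ}

namespace Mer

/-- The defining function in the plane of the meridian. -/
noncomputable def FF (f : E3 → ℝ) (q : ℝ × ℝ) : ℝ := f (pt q.1 0 q.2)

noncomputable def Fx (f : E3 → ℝ) (q : ℝ × ℝ) : ℝ := fderiv ℝ (FF f) q (1, 0)

noncomputable def Fz (f : E3 → ℝ) (q : ℝ × ℝ) : ℝ := fderiv ℝ (FF f) q (0, 1)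

/-- The inclusion of the plane. -/
noncomputable def incl : ℝ × ℝ →L[ℝ] E3 :=
  (ContinuousLinearMap.fst ℝ ℝ ℝ).smulRight (pt 1 0 0) +
    (ContinuousLinearMap.snd ℝ ℝ ℝ).smulRight (pt 0 0 1)

lemma incl_apply (q : ℝ × ℝ) : incl q = pt q.1 0 q.2 := by
  simp only [incl, add_apply, ContinuousLinearMap.smulRight_apply,
    ContinuousLinearMap.coe_fst', ContinuousLinearMap.coe_snd']
  rw [smul_pt, smul_pt, pt_add]
  norm_num

lemma FF_eq (f : E3 → ℝ) : FF f = f ∘ incl := by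
  funext q
  simp only [FF, Function.comp_apply, incl_apply]

lemma contDiff_FF (hB : Body K f w) : ContDiff ℝ ∞ (FF f) := by
  rw [FF_eq]
  exact hB.smooth.comp incl.contDiff

lemma contDiff_Fx (hB : Body K f w) : ContDiff ℝ ∞ (Fx f) := by
  have h := (contDiff_FF hB).fderiv_right (m := ∞) (by norm_num)
  exact h.clm_apply contDiff_const

lemma contDiff_Fz (hB : Body K f w) : ContDiff ℝ ∞ (Fz f) := by
  have h := (contDiff_FF hB).fderiv_right (m := ∞) (by norm_num)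
  exact h.clm_apply contDiff_const

lemma fderiv_FF (hB : Body K f w) (q v : ℝ × ℝ) :
    fderiv ℝ (FF f) q v = inner ℝ (gradient f (pt q.1 0 q.2)) (pt v.1 0 v.2) := by
  have hd : DifferentiableAt ℝ f (incl q) := (hB.smooth.differentiable (by norm_num)) _
  have h : HasFDerivAt (f ∘ incl) ((fderiv ℝ f (incl q)).comp incl) q :=
    hd.hasFDerivAt.comp q incl.hasFDerivAt
  rw [FF_eq, h.fderiv, ContinuousLinearMap.comp_apply, incl_apply, incl_apply,
    inner_gradient_left]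

lemma fderiv_FF' (f : E3 → ℝ) (q : ℝ × ℝ) (a b : ℝ) :
    fderiv ℝ (FF f) q (a, b) = Fx f q * a + Fz f q * b := by
  have : ((a, b) : ℝ × ℝ) = a • ((1, 0) : ℝ × ℝ) + b • ((0, 1) : ℝ × ℝ) := by
    ext <;> simp
  rw [this, map_add, map_smul, map_smul, smul_eq_mul, smul_eq_mul, Fx, Fz]
  ring

/-- Data at a support point. -/
lemma at_nor (hB : Body K f w) {a b c d : ℝ} (h : Nor K (pt a 0 b) (pt c 0 d)) :
    FF f (a, b) = 0 ∧ ∃ g : ℝ, 0 < g ∧ Fx f (a, b) = g * c ∧ Fz f (a, b) = g * d := by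
  obtain ⟨h0, hg⟩ := nor_grad hB h
  refine ⟨h0, ‖gradient f (pt a 0 b)‖, norm_pos_iff.mpr (hB.reg _ h0), ?_, ?_⟩
  · rw [Fx, fderiv_FF hB]
    simp only
    rw [hg, norm_smul, h.2.1, norm_norm, mul_one, smul_pt, inner_pt]
    ring
  · rw [Fz, fderiv_FF hB]
    simp only
    rw [hg, norm_smul, h.2.1, norm_norm, mul_one, smul_pt, inner_pt]
    ring

lemma sq_of_nor {a b c d : ℝ} (h : Nor K (pt a 0 b) (pt c 0 d)) : c ^ 2 + d ^ 2 = 1 := by
  have := norm_pt_sq c 0 d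
  rw [h.2.1] at this
  linarith

/-- The diameter is at most `w`. -/
lemma diam_le (hB : Body K f w) {x y : E3} (hx : x ∈ K) (hy : y ∈ K) : ‖x - y‖ ≤ w := by
  rcases eq_or_ne x y with rfl | hne
  · rw [sub_self, norm_zero]; exact hB.wpos.le
  · have h0 : 0 < ‖x - y‖ := norm_pos_iff.mpr (sub_ne_zero.mpr hne)
    have hu : ‖(‖x - y‖⁻¹ • (x - y) : E3)‖ = 1 := by
      rw [norm_smul, norm_inv, norm_norm, inv_mul_cancel₀ h0.ne']
    obtain ⟨p, hp⟩ := nor_exists hB hu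
    have h1 := hp.2.2 x hx
    have h2 := nor_slab hB hp hy
    have h3 : inner ℝ x (‖x - y‖⁻¹ • (x - y) : E3) - inner ℝ y (‖x - y‖⁻¹ • (x - y) : E3)
        = ‖x - y‖ := by
      rw [← inner_sub_left, real_inner_smul_right, real_inner_self_eq_norm_sq]
      field_simp
    linarith

lemma ball_sub (hB : Body K f w) {p u q : E3} (h : Nor K p u) (hq : q ∈ K) :
    ‖q - (p - w • u)‖ ≤ w :=
  diam_le hB hq (nor_opp hB h).1

/-- The curvature of the meridian does not vanish. -/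
lemma curv (hB : Body K f w) {a b c d : ℝ} (h : Nor K (pt a 0 b) (pt c 0 d)) :
    0 < fderiv ℝ (Fx f) (a, b) (-d, c) * (-d) + fderiv ℝ (Fz f) (a, b) (-d, c) * c := by
  by_contra hQ
  rw [not_lt] at hQ
  set Q := fderiv ℝ (Fx f) (a, b) (-d, c) * (-d) + fderiv ℝ (Fz f) (a, b) (-d, c) * c with hQdef
  have hcd := sq_of_nor h
  obtain ⟨hF0, g, hg, hx, hz⟩ := at_nor hB h
  have hw := hB.wpos
  set k : ℝ := 1 / (4 * w) with hk
  have hk0 : 0 < k := by positivity
  -- the line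
  set y : ℝ → ℝ × ℝ := fun t => (a + t * (-d), b + t * c) with hy
  have hyd : ∀ t, HasDerivAt y ((-d, c) : ℝ × ℝ) t := by
    intro t
    have h1 : HasDerivAt (fun t : ℝ => a + t * (-d)) (-d) t := by
      simpa using ((hasDerivAt_id t).mul_const (-d)).const_add a
    have h2 : HasDerivAt (fun t : ℝ => b + t * c) c t := by
      simpa using ((hasDerivAt_id t).mul_const c).const_add b
    exact h1.prodMk h2
  have hy0 : y 0 = (a, b) := by simp [hy]
  set h1 : ℝ → ℝ := fun t => Fx f (y t) * (-d) + Fz f (y t) * c with hh1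
  have hFd : ∀ t, HasDerivAt (fun t => FF f (y t)) (h1 t) t := by
    intro t
    have e1 := (((contDiff_FF hB).differentiable (by norm_num)) (y t)).hasFDerivAt
    have e2 := e1.comp_hasDerivAt t (hyd t)
    rw [fderiv_FF'] at e2
    exact e2
  have hh1d : HasDerivAt h1 Q 0 := by
    have e1 := (((contDiff_Fx hB).differentiable (by norm_num)) (y 0)).hasFDerivAt
    have e2 := e1.comp_hasDerivAt (0 : ℝ) (hyd 0)
    have e3 := (((contDiff_Fz hB).differentiable (by norm_num)) (y 0)).hasFDerivAt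
    have e4 := e3.comp_hasDerivAt (0 : ℝ) (hyd 0)
    rw [hy0] at e2 e4
    exact (e2.mul_const (-d)).add (e4.mul_const c)
  have hh10 : h1 0 = 0 := by
    rw [hh1]
    simp only
    rw [hy0, hx, hz]
    ring
  -- small parameters
  set ε : ℝ := k * g / 4 with hε
  have hε0 : 0 < ε := by positivity
  have hA := (hasDerivAt_iff_isLittleO.mp hh1d).def hε0
  rw [Metric.eventually_nhds_iff] at hA
  obtain ⟨δ, hδ, hA⟩ := hA
  have hA' : ∀ t, 0 < t → t < δ → h1 t ≤ ε * t := by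
    intro t ht htd
    have e1 := @hA t (by rw [dist_zero_right, norm_eq_abs, abs_of_pos ht]; exact htd)
    rw [hh10, sub_zero, sub_zero, norm_eq_abs, norm_eq_abs, abs_of_pos ht, smul_eq_mul] at e1
    have e2 := le_abs_self (h1 t - t * Q)
    have e3 : t * Q ≤ 0 := mul_nonpos_of_nonneg_of_nonpos ht.le hQ
    linarith
  have hA2 : ∀ t, 0 < t → t < δ → FF f (y t) ≤ ε * t ^ 2 := by
    intro t ht htd
    obtain ⟨ξ, hξ, hs⟩ := exists_hasDerivAt_eq_slope (fun t => FF f (y t)) h1 ht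
      (fun s _ => (hFd s).continuousAt.continuousWithinAt) (fun s _ => hFd s)
    have e1 := hA' ξ hξ.1 (hξ.2.trans htd)
    have e2 : FF f (y 0) = 0 := by rw [hy0]; exact hF0
    simp only [e2, sub_zero] at hs
    have e3 : FF f (y t) = h1 ξ * t := by
      rw [hs]; field_simp
    rw [e3]
    have e4 : ε * ξ ≤ ε * t := mul_le_mul_of_nonneg_left hξ.2.le hε0.le
    nlinarith
  -- the curved points
  set x : ℝ → ℝ × ℝ := fun t => (a + t * (-d) - k * t ^ 2 * c, b + t * c - k * t ^ 2 * d) with hxdef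
  have hxc : Tendsto (fun t => (x t, y t)) (𝓝 0) (𝓝 (((a, b), (a, b)) : (ℝ × ℝ) × (ℝ × ℝ))) := by
    have e1 : Continuous (fun t => (x t, y t)) := by
      rw [hxdef, hy]; fun_prop
    have e2 := e1.tendsto 0
    have e3 : (x 0, y 0) = (((a, b), (a, b)) : (ℝ × ℝ) × (ℝ × ℝ)) := by simp [hxdef, hy]
    rwa [e3] at e2
  have hst : HasStrictFDerivAt (FF f) (fderiv ℝ (FF f) (a, b)) (a, b) :=
    (contDiff_FF hB).contDiffAt.hasStrictFDerivAt (by norm_num)
  have hS := (hst.isLittleO.comp_tendsto hxc).def (by positivity : 0 < g / 2)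
  have hS' := hS.filter_mono (nhdsWithin_le_nhds (s := Ioi (0 : ℝ)))
  have hev : ∀ᶠ t in 𝓝[>] (0 : ℝ), t < δ := by
    filter_upwards [Ioo_mem_nhdsGT hδ] with t ht using ht.2
  have hpos : ∀ᶠ t in 𝓝[>] (0 : ℝ), 0 < t := self_mem_nhdsWithin
  obtain ⟨t, hSt, htd, ht⟩ := (hS'.and (hev.and hpos)).exists
  simp only [Function.comp_apply] at hSt
  have hxy : x t - y t = (-(k * t ^ 2 * c), -(k * t ^ 2 * d)) := by
    rw [hxdef, hy]; ext <;> simp
  have hn : ‖x t - y t‖ ≤ k * t ^ 2 := by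
    have hc1 : |c| ≤ 1 := by
      rw [abs_le_one_iff_mul_self_le_one]; nlinarith
    have hd1 : |d| ≤ 1 := by
      rw [abs_le_one_iff_mul_self_le_one]; nlinarith
    have hkt : 0 ≤ k * t ^ 2 := by positivity
    rw [hxy, Prod.norm_def]
    simp only [norm_neg, norm_eq_abs, abs_mul, abs_of_nonneg hk0.le, abs_of_nonneg (sq_nonneg t)]
    apply max_le
    · calc k * t ^ 2 * |c| ≤ k * t ^ 2 * 1 := mul_le_mul_of_nonneg_left hc1 hkt
        _ = _ := mul_one _
    · calc k * t ^ 2 * |d| ≤ k * t ^ 2 * 1 := mul_le_mul_of_nonneg_left hd1 hkt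
        _ = _ := mul_one _
  have hDF : fderiv ℝ (FF f) (a, b) (x t - y t) = -(k * t ^ 2 * g) := by
    rw [hxy, fderiv_FF', hx, hz]
    have : g * c * -(k * t ^ 2 * c) + g * d * -(k * t ^ 2 * d) = -(k * t ^ 2 * g) * (c ^ 2 + d ^ 2) := by
      ring
    rw [this, hcd, mul_one]
  have hlt : FF f (x t) < 0 := by
    have e1 := (le_abs_self _).trans (hSt.trans (mul_le_mul_of_nonneg_left hn (by positivity)))
    rw [hDF] at e1
    have e2 := hA2 t ht htd
    have e3 : 0 < k * g * t ^ 2 := by positivity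
    rw [hε] at e2
    nlinarith
  have hmem : pt (x t).1 0 (x t).2 ∈ K := by
    rw [hB.eq]
    exact hlt.le
  have hb := ball_sub hB h hmem
  have hb2 : ‖pt (x t).1 0 (x t).2 - (pt a 0 b - w • pt c 0 d)‖ ^ 2 ≤ w ^ 2 :=
    pow_le_pow_left₀ (norm_nonneg _) hb 2
  rw [smul_pt, pt_sub, pt_sub, norm_pt_sq] at hb2
  simp only [hxdef] at hb2
  have e5 : (a + t * -d - k * t ^ 2 * c - (a - w * c)) ^ 2 + (0 - (0 - w * 0)) ^ 2 +
      (b + t * c - k * t ^ 2 * d - (b - w * d)) ^ 2 =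
      ((w - k * t ^ 2) ^ 2 + t ^ 2) * (c ^ 2 + d ^ 2) := by ring
  rw [e5, hcd, mul_one] at hb2
  have e6 : w * k = 1 / 4 := by rw [hk]; field_simp
  have e7 : (w - k * t ^ 2) ^ 2 + t ^ 2 = w ^ 2 + t ^ 2 * (1 - 2 * (w * k)) + (k * t ^ 2) ^ 2 := by
    ring
  rw [e7, e6] at hb2
  have e8 : 0 < t ^ 2 := by positivity
  nlinarith [sq_nonneg (k * t ^ 2)]

/-- The system of equations for the point with normal angle `v.1`. -/
noncomputable def GG (f : E3 → ℝ) (v : ℝ × (ℝ × ℝ)) : ℝ × (ℝ × ℝ) :=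
  (v.1, (FF f v.2, Fx f v.2 * sin v.1 - Fz f v.2 * cos v.1))

lemma contDiff_GG (hB : Body K f w) : ContDiff ℝ ∞ (GG f) := by
  have h1 : ContDiff ℝ ∞ (fun v : ℝ × (ℝ × ℝ) => FF f v.2) := (contDiff_FF hB).comp contDiff_snd
  have h2 : ContDiff ℝ ∞ (fun v : ℝ × (ℝ × ℝ) => Fx f v.2) := (contDiff_Fx hB).comp contDiff_snd
  have h3 : ContDiff ℝ ∞ (fun v : ℝ × (ℝ × ℝ) => Fz f v.2) := (contDiff_Fz hB).comp contDiff_snd
  have h4 : ContDiff ℝ ∞ (fun v : ℝ × (ℝ × ℝ) => sin v.1) := Real.contDiff_sin.comp contDiff_fst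
  have h5 : ContDiff ℝ ∞ (fun v : ℝ × (ℝ × ℝ) => cos v.1) := Real.contDiff_cos.comp contDiff_fst
  exact contDiff_fst.prodMk (h1.prodMk ((h2.mul h4).sub (h3.mul h5)))

/-- The derivative of the system is an isomorphism at a support point. -/
lemma GG_deriv (hB : Body K f w) {φ a b : ℝ} (h : Nor K (pt a 0 b) (pt (cos φ) 0 (sin φ))) :
    ∃ T : (ℝ × (ℝ × ℝ)) ≃L[ℝ] (ℝ × (ℝ × ℝ)),
      HasFDerivAt (GG f) (T : (ℝ × (ℝ × ℝ)) →L[ℝ] (ℝ × (ℝ × ℝ))) (φ, (a, b)) := by
  obtain ⟨hF0, g, hg, hx, hz⟩ := at_nor hB h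
  have hcurv := curv hB h
  set v₀ : ℝ × (ℝ × ℝ) := (φ, (a, b)) with hv₀
  have d1 : HasFDerivAt (fun v : ℝ × (ℝ × ℝ) => v.1) (ContinuousLinearMap.fst ℝ ℝ (ℝ × ℝ)) v₀ :=
    hasFDerivAt_fst
  have d2 : HasFDerivAt (fun v : ℝ × (ℝ × ℝ) => v.2) (ContinuousLinearMap.snd ℝ ℝ (ℝ × ℝ)) v₀ :=
    hasFDerivAt_snd
  have d3 : HasFDerivAt (fun v : ℝ × (ℝ × ℝ) => FF f v.2)
      ((fderiv ℝ (FF f) (a, b)).comp (ContinuousLinearMap.snd ℝ ℝ (ℝ × ℝ))) v₀ :=
    HasFDerivAt.comp (g := FF f) (f := fun v : ℝ × (ℝ × ℝ) => v.2) v₀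
      (((contDiff_FF hB).differentiable (by norm_num)) (a, b)).hasFDerivAt d2
  have d4 : HasFDerivAt (fun v : ℝ × (ℝ × ℝ) => Fx f v.2)
      ((fderiv ℝ (Fx f) (a, b)).comp (ContinuousLinearMap.snd ℝ ℝ (ℝ × ℝ))) v₀ :=
    HasFDerivAt.comp (g := Fx f) (f := fun v : ℝ × (ℝ × ℝ) => v.2) v₀
      (((contDiff_Fx hB).differentiable (by norm_num)) (a, b)).hasFDerivAt d2
  have d5 : HasFDerivAt (fun v : ℝ × (ℝ × ℝ) => Fz f v.2)
      ((fderiv ℝ (Fz f) (a, b)).comp (ContinuousLinearMap.snd ℝ ℝ (ℝ × ℝ))) v₀ :=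
    HasFDerivAt.comp (g := Fz f) (f := fun v : ℝ × (ℝ × ℝ) => v.2) v₀
      (((contDiff_Fz hB).differentiable (by norm_num)) (a, b)).hasFDerivAt d2
  have d6 : HasFDerivAt (fun v : ℝ × (ℝ × ℝ) => sin v.1)
      (cos φ • ContinuousLinearMap.fst ℝ ℝ (ℝ × ℝ)) v₀ := d1.sin
  have d7 : HasFDerivAt (fun v : ℝ × (ℝ × ℝ) => cos v.1)
      (-sin φ • ContinuousLinearMap.fst ℝ ℝ (ℝ × ℝ)) v₀ := d1.cos
  have hT := d1.prodMk (d3.prodMk ((d4.mul d6).sub (d5.mul d7)))
  set T := (ContinuousLinearMap.fst ℝ ℝ (ℝ × ℝ)).prod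
    (((fderiv ℝ (FF f) (a, b)).comp (ContinuousLinearMap.snd ℝ ℝ (ℝ × ℝ))).prod
      ((Fx f v₀.2 • (cos φ • ContinuousLinearMap.fst ℝ ℝ (ℝ × ℝ)) + sin v₀.1 •
        ((fderiv ℝ (Fx f) (a, b)).comp (ContinuousLinearMap.snd ℝ ℝ (ℝ × ℝ)))) -
      (Fz f v₀.2 • (-sin φ • ContinuousLinearMap.fst ℝ ℝ (ℝ × ℝ)) + cos v₀.1 •
        ((fderiv ℝ (Fz f) (a, b)).comp (ContinuousLinearMap.snd ℝ ℝ (ℝ × ℝ)))))) with hTdef
  have hinj : Function.Injective T := by
    rw [injective_iff_map_eq_zero]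
    rintro ⟨s, x, z⟩ h0
    have e1 : s = 0 := congrArg (fun v : ℝ × (ℝ × ℝ) => v.1) h0
    have e2 : fderiv ℝ (FF f) (a, b) (x, z) = 0 := congrArg (fun v : ℝ × (ℝ × ℝ) => v.2.1) h0
    have e3 : (Fx f v₀.2 * (cos φ * s) + sin v₀.1 * fderiv ℝ (Fx f) (a, b) (x, z)) -
      (Fz f v₀.2 * (-sin φ * s) + cos v₀.1 * fderiv ℝ (Fz f) (a, b) (x, z)) = 0 :=
      congrArg (fun v : ℝ × (ℝ × ℝ) => v.2.2) h0
    rw [fderiv_FF', hx, hz] at e2
    have e4 : cos φ * x + sin φ * z = 0 := by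
      have : g * (cos φ * x + sin φ * z) = 0 := by rw [← e2]; ring
      rcases mul_eq_zero.mp this with h | h
      · exact absurd h hg.ne'
      · exact h
    have hcs := cos_sq_add_sin_sq φ
    set lam := -sin φ * x + cos φ * z with hlam
    have e5 : x = lam * (-sin φ) := by
      have : x = (cos φ ^ 2 + sin φ ^ 2) * x := by rw [hcs, one_mul]
      rw [hlam]
      linear_combination this + cos φ * e4
    have e6 : z = lam * cos φ := by
      have : z = (cos φ ^ 2 + sin φ ^ 2) * z := by rw [hcs, one_mul]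
      rw [hlam]
      linear_combination this + sin φ * e4
    have e7 : ((x, z) : ℝ × ℝ) = lam • ((-sin φ, cos φ) : ℝ × ℝ) := by
      rw [Prod.smul_mk, smul_eq_mul, smul_eq_mul, ← e5, ← e6]
    rw [e7, map_smul, map_smul, e1] at e3
    simp only [smul_eq_mul, mul_zero, zero_add] at e3
    have e8 : lam * (fderiv ℝ (Fx f) (a, b) (-sin φ, cos φ) * (-sin φ) +
        fderiv ℝ (Fz f) (a, b) (-sin φ, cos φ) * cos φ) = 0 := by
      have : v₀.1 = φ := rfl
      rw [this] at e3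
      linear_combination -e3
    rcases mul_eq_zero.mp e8 with h | h
    · rw [e1, e5, e6, h, zero_mul, zero_mul]
      rfl
    · exact absurd h hcurv.ne'
  refine ⟨(LinearEquiv.ofInjectiveEndo (T : (ℝ × (ℝ × ℝ)) →ₗ[ℝ] (ℝ × (ℝ × ℝ)))
    hinj).toContinuousLinearEquiv, ?_⟩
  have hco : (((LinearEquiv.ofInjectiveEndo (T : (ℝ × (ℝ × ℝ)) →ₗ[ℝ] (ℝ × (ℝ × ℝ)))
    hinj).toContinuousLinearEquiv : (ℝ × (ℝ × ℝ)) ≃L[ℝ] (ℝ × (ℝ × ℝ))) :
      (ℝ × (ℝ × ℝ)) →L[ℝ] (ℝ × (ℝ × ℝ))) = T := by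
    apply ContinuousLinearMap.ext
    intro v
    rfl
  rw [hco]
  exact hT

/-- Near a support point the support point depends smoothly on the normal angle. -/
lemma local_smooth (hB : Body K f w) {φ a b : ℝ} (h : Nor K (pt a 0 b) (pt (cos φ) 0 (sin φ))) :
    ∃ ψ : ℝ → ℝ × ℝ, ContDiffAt ℝ ∞ ψ φ ∧
      ∀ᶠ θ in 𝓝 φ, Nor K (pt (ψ θ).1 0 (ψ θ).2) (pt (cos θ) 0 (sin θ)) := by
  obtain ⟨hF0, g, hg, hx, hz⟩ := at_nor hB h
  obtain ⟨T, hT⟩ := GG_deriv hB h
  have hn : (∞ : WithTop ℕ∞) ≠ 0 := by norm_num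
  have hc : ContDiffAt ℝ ∞ (GG f) (φ, (a, b)) := (contDiff_GG hB).contDiffAt
  have hG0 : GG f (φ, (a, b)) = (φ, (0, 0)) := by
    simp only [GG, hF0, hx, hz]
    rw [show g * cos φ * sin φ - g * sin φ * cos φ = 0 by ring]
  have hli := hc.to_localInverse hT hn
  rw [hG0] at hli
  have hri := (hc.hasStrictFDerivAt' hT hn).eventually_right_inverse
  rw [hG0] at hri
  have him := hc.localInverse_apply_image hT hn
  rw [hG0] at him
  set li := hc.localInverse hT hn with hlidef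
  have hpath : ContDiff ℝ ∞ (fun θ : ℝ => ((θ, (0, 0)) : ℝ × (ℝ × ℝ))) :=
    contDiff_id.prodMk contDiff_const
  have hpc : Tendsto (fun θ : ℝ => ((θ, (0, 0)) : ℝ × (ℝ × ℝ))) (𝓝 φ) (𝓝 (φ, (0, 0))) :=
    hpath.continuous.tendsto φ
  have hψ : ContDiffAt ℝ ∞ (fun θ : ℝ => (li (θ, (0, 0))).2) φ :=
    contDiffAt_snd.comp φ (hli.comp φ hpath.contDiffAt)
  refine ⟨fun θ => (li (θ, (0, 0))).2, hψ, ?_⟩
  have hψ0 : (li (φ, (0, 0))).2 = (a, b) := by rw [him]
  have hcx : ContinuousAt (fun θ : ℝ => Fx f (li (θ, (0, 0))).2 * cos θ +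
      Fz f (li (θ, (0, 0))).2 * sin θ) φ := by
    have e1 : ContinuousAt (fun θ : ℝ => Fx f (li (θ, (0, 0))).2) φ :=
      (contDiff_Fx hB).continuous.continuousAt.comp hψ.continuousAt
    have e2 : ContinuousAt (fun θ : ℝ => Fz f (li (θ, (0, 0))).2) φ :=
      (contDiff_Fz hB).continuous.continuousAt.comp hψ.continuousAt
    exact (e1.mul continuous_cos.continuousAt).add (e2.mul continuous_sin.continuousAt)
  have hpos : 0 < Fx f (li (φ, (0, 0))).2 * cos φ + Fz f (li (φ, (0, 0))).2 * sin φ := by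
    rw [hψ0, hx, hz]
    have : g * cos φ * cos φ + g * sin φ * sin φ = g * (cos φ ^ 2 + sin φ ^ 2) := by ring
    rw [this, cos_sq_add_sin_sq, mul_one]
    exact hg
  filter_upwards [hcx.eventually (lt_mem_nhds hpos), hpc.eventually hri] with θ h1 h2
  have h2' : GG f (li (θ, (0, 0))) = (θ, (0, 0)) := h2
  have e0 : (li (θ, (0, 0))).1 = θ := congrArg (fun v : ℝ × (ℝ × ℝ) => v.1) h2'
  have e1 : FF f (li (θ, (0, 0))).2 = 0 := congrArg (fun v : ℝ × (ℝ × ℝ) => v.2.1) h2'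
  have e2 : Fx f (li (θ, (0, 0))).2 * sin (li (θ, (0, 0))).1 -
      Fz f (li (θ, (0, 0))).2 * cos (li (θ, (0, 0))).1 = 0 :=
    congrArg (fun v : ℝ × (ℝ × ℝ) => v.2.2) h2'
  rw [e0] at e2
  obtain ⟨c, d, hnor, hcd⟩ := planar_nor hB e1
  obtain ⟨-, g', hg', hx', hz'⟩ := at_nor hB hnor
  simp only [Prod.mk.eta] at hx' hz'
  simp only [hx', hz'] at h1 e2
  have e3 : c * sin θ - d * cos θ = 0 := by
    have : g' * (c * sin θ - d * cos θ) = 0 := by rw [← e2]; ring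
    rcases mul_eq_zero.mp this with h | h
    · exact absurd h hg'.ne'
    · exact h
  have e4 : 0 < c * cos θ + d * sin θ := by
    have : 0 < g' * (c * cos θ + d * sin θ) := by
      have e5 : g' * (c * cos θ + d * sin θ) = g' * c * cos θ + g' * d * sin θ := by ring
      rw [e5]; exact h1
    exact (pos_iff_pos_of_mul_pos this).mp hg'
  have hcs := cos_sq_add_sin_sq θ
  have e5 : c * cos θ + d * sin θ = 1 := by
    have e6 : (c * cos θ + d * sin θ) ^ 2 = 1 := by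
      linear_combination (c ^ 2 + d ^ 2) * hcs + hcd - (c * sin θ - d * cos θ) * e3
    have e7 : (c * cos θ + d * sin θ - 1) * (c * cos θ + d * sin θ + 1) = 0 := by
      linear_combination e6
    rcases mul_eq_zero.mp e7 with h | h
    · linarith
    · linarith
  have e6 : c = cos θ := by
    linear_combination (-c) * hcs + cos θ * e5 + sin θ * e3
  have e7 : d = sin θ := by
    linear_combination (-d) * hcs + sin θ * e5 - cos θ * e3
  rw [← e6, ← e7]
  exact hnor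

end Mer

open Mer

/-- The meridian parametrised by its normal angle. -/
theorem exists_profile (hB : Body K f w) : ∃ A B R : ℝ → ℝ, Profile K A B R := by
  have hunit : ∀ φ : ℝ, ‖pt (cos φ) 0 (sin φ)‖ = 1 := by
    intro φ
    have h1 := norm_pt_sq (cos φ) 0 (sin φ)
    have h2 := cos_sq_add_sin_sq φ
    have h3 : ‖pt (cos φ) 0 (sin φ)‖ ^ 2 = 1 := by rw [h1]; linarith
    rw [← sqrt_sq (norm_nonneg (pt (cos φ) 0 (sin φ))), h3, sqrt_one]
  have hex : ∀ φ : ℝ, ∃ q : ℝ × ℝ, Nor K (pt q.1 0 q.2) (pt (cos φ) 0 (sin φ)) := by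
    intro φ
    obtain ⟨p, hp⟩ := nor_exists hB (hunit φ)
    have h1 := nor_planar hB hp
    refine ⟨(p 0, p 2), ?_⟩
    have h2 := pt_eta p
    rw [h1] at h2
    simp only
    rw [h2]
    exact hp
  choose P hP using hex
  set A : ℝ → ℝ := fun φ => (P φ).1 with hA
  set B : ℝ → ℝ := fun φ => (P φ).2 with hBd
  have hPs : ∀ φ, ContDiffAt ℝ ∞ P φ := by
    intro φ
    obtain ⟨ψ, hψ, hev⟩ := local_smooth hB (hP φ)
    apply hψ.congr_of_eventuallyEq
    filter_upwards [hev] with θ hθ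
    have h1 := nor_unique hB (hP θ) hθ
    have h2 : (P θ).1 = (ψ θ).1 := by
      have := congrArg (fun v : E3 => v 0) h1
      simpa using this
    have h3 : (P θ).2 = (ψ θ).2 := by
      have := congrArg (fun v : E3 => v 2) h1
      simpa using this
    exact Prod.ext h2 h3
  have smP : ContDiff ℝ ∞ P := contDiff_iff_contDiffAt.mpr hPs
  have smA : ContDiff ℝ ∞ A := contDiff_fst.comp smP
  have smB : ContDiff ℝ ∞ B := contDiff_snd.comp smP
  have dA : ∀ φ, HasDerivAt A (deriv A φ) φ := fun φ =>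
    ((smA.differentiable (by norm_num)) φ).hasDerivAt
  have dB : ∀ φ, HasDerivAt B (deriv B φ) φ := fun φ =>
    ((smB.differentiable (by norm_num)) φ).hasDerivAt
  have sup : ∀ φ θ, A θ * cos φ + B θ * sin φ ≤ A φ * cos φ + B φ * sin φ := by
    intro φ θ
    have h1 := (hP φ).2.2 _ (hP θ).1
    rw [inner_pt, inner_pt] at h1
    simp only [hA, hBd]
    linarith
  have dzero : ∀ φ, deriv A φ * cos φ + deriv B φ * sin φ = 0 := by
    intro φ
    have h1 : HasDerivAt (fun θ => A θ * cos φ + B θ * sin φ)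
        (deriv A φ * cos φ + deriv B φ * sin φ) φ :=
      ((dA φ).mul_const _).add ((dB φ).mul_const _)
    have h2 : IsLocalMax (fun θ => A θ * cos φ + B θ * sin φ) φ :=
      Eventually.of_forall fun θ => sup φ θ
    exact h2.hasDerivAt_eq_zero h1
  set R : ℝ → ℝ := fun φ => -(deriv A φ * sin φ) + deriv B φ * cos φ with hR
  have eA : ∀ φ, deriv A φ = -(R φ * sin φ) := by
    intro φ
    have h1 := dzero φ
    have hcs := cos_sq_add_sin_sq φ
    simp only [hR]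
    linear_combination (-(deriv A φ)) * hcs + cos φ * h1
  have eB : ∀ φ, deriv B φ = R φ * cos φ := by
    intro φ
    have h1 := dzero φ
    have hcs := cos_sq_add_sin_sq φ
    simp only [hR]
    linear_combination (-(deriv B φ)) * hcs + sin φ * h1
  have smA' : ContDiff ℝ ∞ (deriv A) := (contDiff_infty_iff_deriv.mp smA).2
  have smB' : ContDiff ℝ ∞ (deriv B) := (contDiff_infty_iff_deriv.mp smB).2
  have smR : ContDiff ℝ ∞ R :=
    ((smA'.mul contDiff_sin).neg).add (smB'.mul contDiff_cos)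
  have Rnn : ∀ φ, 0 ≤ R φ := by
    intro φ
    have t1 := hasDerivAt_iff_tendsto_slope.mp (dA φ)
    have t2 := hasDerivAt_iff_tendsto_slope.mp (dB φ)
    have t3 := hasDerivAt_iff_tendsto_slope.mp (hasDerivAt_cos φ)
    have t4 := hasDerivAt_iff_tendsto_slope.mp (hasDerivAt_sin φ)
    have t5 := (t1.mul t3).add (t2.mul t4)
    have e1 : deriv A φ * -sin φ + deriv B φ * cos φ = R φ := by simp only [hR]; ring
    rw [e1] at t5
    apply ge_of_tendsto t5
    filter_upwards [self_mem_nhdsWithin] with θ hθ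
    have hne : θ - φ ≠ 0 := sub_ne_zero.mpr hθ
    simp only [slope_def_field]
    have s1 := sup φ θ
    have s2 := sup θ φ
    have e2 : (A θ - A φ) / (θ - φ) * ((cos θ - cos φ) / (θ - φ)) +
        (B θ - B φ) / (θ - φ) * ((sin θ - sin φ) / (θ - φ)) =
        ((A θ - A φ) * (cos θ - cos φ) + (B θ - B φ) * (sin θ - sin φ)) / (θ - φ) ^ 2 := by
      field_simp
    rw [e2]
    apply div_nonneg _ (sq_nonneg _)
    nlinarith
  have Rpos : ∀ φ, 0 < R φ := by
    intro φ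
    rcases (Rnn φ).lt_or_eq with h | h
    · exact h
    · exfalso
      have a0 : deriv A φ = 0 := by rw [eA, ← h]; ring
      have b0 : deriv B φ = 0 := by rw [eB, ← h]; ring
      obtain ⟨-, g, hg, hx, hz⟩ := at_nor hB (hP φ)
      have hPd : HasDerivAt P ((0, 0) : ℝ × ℝ) φ := by
        have h1 := (dA φ).prodMk (dB φ)
        rw [a0, b0] at h1
        exact h1
      have hzero : ∀ θ, Fx f (P θ) * sin θ - Fz f (P θ) * cos θ = 0 := by
        intro θ
        obtain ⟨-, g', hg', hx', hz'⟩ := at_nor hB (hP θ)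
        simp only [Prod.mk.eta] at hx' hz'
        rw [hx', hz']; ring
      have k1 := (((contDiff_Fx hB).differentiable (by norm_num)) (P φ)).hasFDerivAt.comp_hasDerivAt
        φ hPd
      have k2 := (((contDiff_Fz hB).differentiable (by norm_num)) (P φ)).hasFDerivAt.comp_hasDerivAt
        φ hPd
      have k3 := (k1.mul (hasDerivAt_sin φ)).sub (k2.mul (hasDerivAt_cos φ))
      have k4 : HasDerivAt (fun θ : ℝ => (0 : ℝ)) 0 φ := hasDerivAt_const _ _
      have k5 : (fun θ : ℝ => (0 : ℝ)) = fun θ => Fx f (P θ) * sin θ - Fz f (P θ) * cos θ := by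
        funext θ; rw [hzero θ]
      rw [k5] at k4
      have k6 := k3.unique k4
      have z0 : ((0, 0) : ℝ × ℝ) = 0 := rfl
      simp only [z0, map_zero, zero_mul, zero_add, Function.comp_apply] at k6
      simp only [Prod.mk.eta] at hx hz
      rw [hx, hz] at k6
      have hcs := cos_sq_add_sin_sq φ
      have : g = 0 := by linear_combination (-g) * hcs + k6
      exact hg.ne' this
  refine ⟨A, B, R, smA, smB, smR, Rpos, fun φ => ?_, fun φ => ?_, fun φ => hP φ⟩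
  · rw [← eA]; exact dA φ
  · rw [← eB]; exact dB φ

end Pool.Agent.Rev
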